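import Pool.Agent.K6.H13.KL.Data

set_option autoImplicit false

namespace Pool.Agent.K6.H13.KL

theorem blks2 (i : ℕ) (hi : i < 14) : allUpto (chk vt lt) 7 (128 * (i + 28)) = true := by
  interval_cases i <;> decide +kernel

end Pool.Agent.K6.H13.KL
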