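import Pool.Agent.K6.H13.KL.Main

set_option autoImplicit false

namespace Pool.Agent.K6.H13.KL

open Filter Pool.Agent.Helper894.Three

theorem DX_card_le (n : ℤ) {x : ℝ} (hx : 0 ≤ x) : ((DX n x).ncard : ℝ) ≤ 2 * x + 1 := by
  have h1 : DX n x ⊆ ((Finset.Icc (-⌊x⌋) ⌊x⌋ : Finset ℤ) : Set ℤ) := by
    rintro z ⟨-, hz⟩
    rw [abs_le] at hz
    rw [Finset.mem_coe, Finset.mem_Icc]
    constructor
    · have h2 : -z ≤ ⌊x⌋ := Int.le_floor.2 (by push_cast; linarith)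
      linarith
    · exact Int.le_floor.2 hz.2
  have h2 := Set.ncard_le_ncard h1 (Finset.finite_toSet _)
  rw [Set.ncard_coe_finset, Int.card_Icc] at h2
  have h3 : 0 ≤ ⌊x⌋ := Int.floor_nonneg.2 hx
  have h4 : ((DX n x).ncard : ℤ) ≤ 2 * ⌊x⌋ + 1 := by omega
  have h5 : ((DX n x).ncard : ℝ) ≤ 2 * (⌊x⌋ : ℝ) + 1 := by exact_mod_cast h4
  have h6 : (⌊x⌋ : ℝ) ≤ x := Int.floor_le x
  linarith

theorem q_le : (1 / 1.00005 : ℝ) ≤ Real.exp (-(1 / 25000)) := by
  have := Real.add_one_le_exp (-(1 / 25000) : ℝ)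
  norm_num at this ⊢
  linarith

theorem q_pow_le {x : ℝ} (hx : 1 ≤ x) (l : ℕ) (hl : 50000 * Real.log x ≤ l) :
    (1 / 1.00005 : ℝ) ^ l ≤ 1 / x ^ 2 := by
  have hx0 : 0 < x := by linarith
  have hlog : 0 ≤ Real.log x := Real.log_nonneg hx
  calc (1 / 1.00005 : ℝ) ^ l ≤ (Real.exp (-(1 / 25000))) ^ l :=
        pow_le_pow_left₀ (by norm_num) q_le l
    _ = Real.exp (-(l / 25000)) := by
        rw [← Real.exp_nat_mul]
        congr 1
        ring
    _ ≤ Real.exp (-(2 * Real.log x)) := by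
        apply Real.exp_le_exp.2
        linarith
    _ = 1 / x ^ 2 := by
        rw [Real.exp_neg, ← one_div]
        congr 1
        rw [show 2 * Real.log x = Real.log x + Real.log x by ring, Real.exp_add,
          Real.exp_log hx0]
        ring

/-- The growth bound. -/
theorem growthT {v L : ℕ → ℕ} (hc : Cert v L) {a : ℤ} (ha : ¬ (3 : ℤ) ∣ a) {m : ℕ} (hm : 0 < m)
    (r : ℤ) :
    ∃ c : ℝ, 0 < c ∧ ∀ᶠ x : ℝ in atTop,
      c * x ^ S ≤ ((DT {z | (m : ℤ) ∣ z - r} a x ⌊100001 * Real.log x⌋₊).ncard : ℝ) := by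
  obtain ⟨ρ, ⟨kρ, hra⟩, hr5, hrp, hrs⟩ := exists_root ha 1000000
  obtain ⟨C, M, hC, hcls⟩ := all_classes hm r
  obtain ⟨W, hWdef⟩ : ∃ W : Set ℤ, W = {z | (m : ℤ) ∣ z - r} := ⟨_, rfl⟩
  rw [← hWdef]
  have hCR : (1 : ℝ) ≤ C := by exact_mod_cast hC
  have hr0 : (1000000 : ℝ) ≤ |(ρ : ℝ)| := by
    have := hrs ρ (desc_self ρ)
    rw [← Int.cast_abs]
    exact_mod_cast this
  have hwr : 0 < wf v ρ := by
    unfold wf
    apply mul_pos
    · have := hc.pos _ (idx_lt (N := 4782969) (by norm_num) ((ρ - 2) / 3))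
      exact_mod_cast (by omega : 0 < v (idx 4782969 ((ρ - 2) / 3)))
    · apply Real.rpow_pos_of_pos
      linarith
  obtain ⟨B, hB⟩ : ∃ B : ℝ, B = 65535 * 8191 := ⟨_, rfl⟩
  have hB0 : 0 < B := by rw [hB]; norm_num
  have hvB : ∀ t, (v t : ℝ) ≤ B := by
    intro t
    rw [hB]
    exact_mod_cast hc.bound _
  refine ⟨wf v ρ / (2 * B) * (4 * C : ℝ) ^ (-S), by positivity, ?_⟩
  filter_upwards [eventually_ge_atTop (4 * C * |(ρ : ℝ)|),
    eventually_ge_atTop (6 * B / wf v ρ), eventually_ge_atTop (1 : ℝ),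
    Real.tendsto_log_atTop.eventually_ge_atTop ((kρ : ℝ) + M + 2)] with x hx hx2 hx1 hxl
  have hx0 : 0 < x := by linarith
  have hX0 : 0 < x / (4 * C) := by positivity
  have hlog : 0 ≤ Real.log x := Real.log_nonneg hx1
  have e16 : 4 * (x / (4 * C)) = x / C := by field_simp
  have hxC : x / C ≤ x := div_le_self hx0.le hCR
  have hρx : |(ρ : ℝ)| ≤ 4 * (x / (4 * C)) := by
    rw [e16, le_div_iff₀ (by positivity)]
    nlinarith [abs_nonneg (ρ : ℝ)]
  obtain ⟨l, hl⟩ : ∃ l, l = ⌈50000 * Real.log x⌉₊ := ⟨_, rfl⟩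
  have hl1 : 50000 * Real.log x ≤ l := by rw [hl]; exact Nat.le_ceil _
  have hl2 : (l : ℝ) < 50000 * Real.log x + 1 := by
    rw [hl]
    exact Nat.ceil_lt_add_one (by positivity)
  have hm := massT W (wf v) (x / (4 * C)) (B * (x / (4 * C)) ^ (-S)) x B (1 / 1.00005) 1000000 M
    (by positivity) (by norm_num) (by norm_num)
    (by
      intro n hn
      unfold wf
      have h2 : |(n : ℝ)| ^ (-S) ≤ (x / (4 * C)) ^ (-S) :=
        Real.rpow_le_rpow_of_nonpos hX0 hn.le (by have := S_pos; linarith)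
      exact mul_le_mul (hvB _) h2 (by positivity) hB0.le)
    (by
      intro n hn
      unfold wf
      have h1 : (1 : ℝ) ≤ |(n : ℝ)| := by
        rw [← Int.cast_abs]
        exact_mod_cast (by omega : (1 : ℤ) ≤ |n|)
      have h2 : |(n : ℝ)| ^ (-S) ≤ 1 :=
        Real.rpow_le_one_of_one_le_of_nonpos h1 (by have := S_pos; linarith)
      calc (v (idx 4782969 ((n - 2) / 3)) : ℝ) * |(n : ℝ)| ^ (-S) ≤ B * 1 :=
            mul_le_mul (hvB _) h2 (by positivity) hB0.le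
        _ = B := mul_one B)
    hB0.le
    (by
      intro n hn3 hn
      obtain ⟨z, hz1, hz2, hz3⟩ := hcls n (by omega)
      refine ⟨z, hz1, by rw [hWdef]; exact hz2, ?_⟩
      have h3 : |(z : ℝ)| ≤ C * |(n : ℝ)| := by
        rw [← Int.cast_abs, ← Int.cast_abs]
        exact_mod_cast hz3
      rw [e16] at hn
      calc |(z : ℝ)| ≤ C * |(n : ℝ)| := h3
        _ ≤ C * (x / C) := mul_le_mul_of_nonneg_left hn (by positivity)
        _ = x := by field_simp)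
    (by
      intro t ht
      rcases hsub hc t ht with h | ⟨e, he, he2, h⟩
      · left
        rw [div_mul_eq_mul_div, one_mul, le_div_iff₀ (by norm_num)]
        linarith
      · right
        refine ⟨e, he, he2, ?_⟩
        rw [div_mul_eq_mul_div, one_mul, le_div_iff₀ (by norm_num)]
        linarith) l ρ hr5 hrp hrs hρx
  have hDX : ((DX ρ (4 * (x / (4 * C)))).ncard : ℝ) ≤ 3 * x := by
    have h1 := DX_card_le ρ (x := 4 * (x / (4 * C))) (by positivity)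
    rw [e16] at h1 ⊢
    linarith
  have herr : (1 / 1.00005 : ℝ) ^ l * (B * (DX ρ (4 * (x / (4 * C)))).ncard) ≤ wf v ρ / 2 := by
    calc (1 / 1.00005 : ℝ) ^ l * (B * (DX ρ (4 * (x / (4 * C)))).ncard)
        ≤ 1 / x ^ 2 * (B * (3 * x)) := by
          apply mul_le_mul (q_pow_le hx1 l hl1) _ (by positivity) (by positivity)
          exact mul_le_mul_of_nonneg_left hDX hB0.le
      _ = 3 * B / x := by field_simp
      _ ≤ wf v ρ / 2 := by
          rw [div_le_iff₀ hwr] at hx2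
          rw [div_le_iff₀ hx0]
          linarith
  have hsubset : (DT W ρ x (2 * l + M)).ncard ≤ (DT W a x ⌊100001 * Real.log x⌋₊).ncard := by
    apply Set.ncard_le_ncard _ (DT_finite _ _ _ _)
    apply DT_sub x hra
    apply Nat.le_floor
    push_cast
    linarith
  have hsubset' : ((DT W ρ x (2 * l + M)).ncard : ℝ) ≤
      (DT W a x ⌊100001 * Real.log x⌋₊).ncard := by exact_mod_cast hsubset
  refine le_trans ?_ hsubset'
  have hm' : wf v ρ / 2 ≤ B * (x / (4 * C)) ^ (-S) * (DT W ρ x (2 * l + M)).ncard := by linarith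
  rw [Real.div_rpow hx0.le (by positivity), Real.rpow_neg hx0.le] at hm'
  have hxs : 0 < x ^ S := by positivity
  have h16 : 0 < (4 * C : ℝ) ^ (-S) := by positivity
  have h3 : wf v ρ / 2 * (x ^ S * (4 * C : ℝ) ^ (-S)) ≤ B * (DT W ρ x (2 * l + M)).ncard := by
    calc wf v ρ / 2 * (x ^ S * (4 * C : ℝ) ^ (-S))
        ≤ (B * ((x ^ S)⁻¹ / (4 * C : ℝ) ^ (-S)) * (DT W ρ x (2 * l + M)).ncard) *
            (x ^ S * (4 * C : ℝ) ^ (-S)) := mul_le_mul_of_nonneg_right hm' (by positivity)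
      _ = B * (DT W ρ x (2 * l + M)).ncard * ((x ^ S)⁻¹ * x ^ S) *
          ((4 * C : ℝ) ^ (-S) / (4 * C : ℝ) ^ (-S)) := by
          ring
      _ = B * (DT W ρ x (2 * l + M)).ncard := by
          rw [inv_mul_cancel₀ hxs.ne', div_self h16.ne']; ring
  calc wf v ρ / (2 * B) * (4 * C : ℝ) ^ (-S) * x ^ S
      = wf v ρ / 2 * (x ^ S * (4 * C : ℝ) ^ (-S)) / B := by field_simp
    _ ≤ B * (DT W ρ x (2 * l + M)).ncard / B := by gcongr
    _ = (DT W ρ x (2 * l + M)).ncard := by field_simp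

theorem growth_log {v L : ℕ → ℕ} (hc : Cert v L) {a : ℤ} (ha : ¬ (3 : ℤ) ∣ a) {m : ℕ}
    (hm : 0 < m) (r : ℤ) :
    ∀ᶠ x : ℝ in atTop, x ^ (0.88 : ℝ) ≤
      ((DT {z | (m : ℤ) ∣ z - r} a x ⌊100001 * Real.log x⌋₊).ncard : ℝ) := by
  obtain ⟨c, hc0, hev⟩ := growthT hc ha hm r
  have hd : (0 : ℝ) < S - 0.88 := by unfold S; norm_num
  have ht := tendsto_rpow_atTop hd
  filter_upwards [hev, ht.eventually_ge_atTop (1 / c), eventually_gt_atTop (0 : ℝ)] with x h1 h2 h3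
  refine le_trans ?_ h1
  have h4 : x ^ S = x ^ (S - 0.88) * x ^ (0.88 : ℝ) := by
    rw [← Real.rpow_add h3]; congr 1; ring
  rw [h4]
  have h5 : 1 ≤ c * x ^ (S - 0.88) := by
    rw [div_le_iff₀ hc0] at h2
    linarith
  have h6 : 0 ≤ x ^ (0.88 : ℝ) := by positivity
  calc x ^ (0.88 : ℝ) = 1 * x ^ (0.88 : ℝ) := by ring
    _ ≤ (c * x ^ (S - 0.88)) * x ^ (0.88 : ℝ) := mul_le_mul_of_nonneg_right h5 h6
    _ = _ := by ring

end Pool.Agent.K6.H13.KL
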