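import Pool.Agent.K6.H13.KL.Blk0
import Pool.Agent.K6.H13.KL.Blk1
import Pool.Agent.K6.H13.KL.Blk2
import Pool.Agent.K6.H13.KL.Blk3
import Pool.Agent.K6.H13.KL.Blk4
import Pool.Agent.K6.H13.KL.Blk5
import Pool.Agent.K6.H13.KL.Blk6
import Pool.Agent.K6.H13.KL.Blk7
import Pool.Agent.K6.H13.KL.Blk8
import Pool.Agent.K6.H13.KL.Blk9
import Pool.Agent.K6.H13.KL.Blk10
import Pool.Agent.K6.H13.KL.Growth

set_option autoImplicit false

namespace Pool.Agent.K6.H13.KL

theorem chk_all (q : ℕ) (hq : q < 19683) : chk vt lt q = true := by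
  rcases Nat.lt_or_ge (q / 128) 14 with h0 | h0
  · exact allUpto_spec _ _ _ (blks0 (q / 128 - 0) (by omega)) q (by omega) (by norm_num; omega)
  rcases Nat.lt_or_ge (q / 128) 28 with h1 | h1
  · exact allUpto_spec _ _ _ (blks1 (q / 128 - 14) (by omega)) q (by omega) (by norm_num; omega)
  rcases Nat.lt_or_ge (q / 128) 42 with h2 | h2
  · exact allUpto_spec _ _ _ (blks2 (q / 128 - 28) (by omega)) q (by omega) (by norm_num; omega)
  rcases Nat.lt_or_ge (q / 128) 56 with h3 | h3
  · exact allUpto_spec _ _ _ (blks3 (q / 128 - 42) (by omega)) q (by omega) (by norm_num; omega)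
  rcases Nat.lt_or_ge (q / 128) 70 with h4 | h4
  · exact allUpto_spec _ _ _ (blks4 (q / 128 - 56) (by omega)) q (by omega) (by norm_num; omega)
  rcases Nat.lt_or_ge (q / 128) 84 with h5 | h5
  · exact allUpto_spec _ _ _ (blks5 (q / 128 - 70) (by omega)) q (by omega) (by norm_num; omega)
  rcases Nat.lt_or_ge (q / 128) 98 with h6 | h6
  · exact allUpto_spec _ _ _ (blks6 (q / 128 - 84) (by omega)) q (by omega) (by norm_num; omega)
  rcases Nat.lt_or_ge (q / 128) 112 with h7 | h7
  · exact allUpto_spec _ _ _ (blks7 (q / 128 - 98) (by omega)) q (by omega) (by norm_num; omega)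
  rcases Nat.lt_or_ge (q / 128) 126 with h8 | h8
  · exact allUpto_spec _ _ _ (blks8 (q / 128 - 112) (by omega)) q (by omega) (by norm_num; omega)
  rcases Nat.lt_or_ge (q / 128) 140 with h9 | h9
  · exact allUpto_spec _ _ _ (blks9 (q / 128 - 126) (by omega)) q (by omega) (by norm_num; omega)
  rcases Nat.lt_or_ge (q / 128) 154 with h10 | h10
  · exact allUpto_spec _ _ _ (blks10 (q / 128 - 140) (by omega)) q (by omega) (by norm_num; omega)
  omega

theorem cert : Cert (val vt 19683) (val lt 6561) := by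
  have key : ∀ t < 4782969, 1 ≤ val vt 19683 t ∧
      val lt 6561 (t % 1594323) ≤ val vt 19683 t ∧
      1000050 * val vt 19683 t ≤ 295070 * val vt 19683 ((4 * t + 2) % 4782969) +
        term (val lt 6561) 1429014 776246 (t / 3) (t % 3) := by
    intro t ht
    have h := chk_spec (chk_all (t % 19683) (Nat.mod_lt _ (by norm_num)))
      (Nat.mod_lt _ (by norm_num)) (t / 19683 % 81) (Nat.mod_lt _ (by norm_num))
      (t / 19683 / 81) (by omega)
    have e1 : t % 19683 + 19683 * (t / 19683 % 81 + 81 * (t / 19683 / 81)) = t := by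
      rw [Nat.mod_add_div, Nat.mod_add_div]
    have e2 : t % 19683 + 19683 * (t / 19683 % 81) = t % 1594323 := by omega
    rw [e1, e2] at h
    exact h
  exact ⟨fun t ht => (key t ht).1, fun t => val_le _ _ t, fun t ht => (key t ht).2.1,
    fun t ht => (key t ht).2.2⟩

end Pool.Agent.K6.H13.KL
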