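import Mathlib

set_option autoImplicit false

namespace Pool.Agent.K6.H13.KL

/-- ternary trees of numerals -/
inductive Tr : Type
  | lf : ℕ → Tr
  | nd : Tr → Tr → Tr → Tr

/-- look up by ternary digits, least significant digit first -/
noncomputable def Tr.get (T : Tr) : ℕ → ℕ :=
  Tr.rec (motive := fun _ => ℕ → ℕ) (fun n _ => n)
    (fun _ _ _ g0 g1 g2 i => Nat.rec (g0 (Nat.div i 3))
      (fun r _ => Nat.rec (g1 (Nat.div i 3)) (fun _ _ => g2 (Nat.div i 3)) r) (Nat.mod i 3)) T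

/-- the multiplier of a block -/
noncomputable def mlt (x : ℕ) : ℕ := Nat.mod x 65536

/-- a field of a block -/
noncomputable def fld (x j : ℕ) : ℕ :=
  Nat.mod (Nat.shiftRight x (Nat.add 16 (Nat.mul 13 j))) 8192

/-- one comparison -/
noncomputable def cmp (c ga ml r AX fx BY fy : ℕ) : Bool :=
  Bool.rec false
    (Bool.rec false
      (Nat.ble (Nat.mul r c) (Nat.add (Nat.mul AX fx) (Nat.mul BY fy)))
      (Nat.ble ml (Nat.mul ga c)))
    (Nat.ble 1 c)

/-- three comparisons -/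
noncomputable def cmp3 (x ga ml r X AX ix Y BY iy dy u : ℕ) : Bool :=
  Bool.rec false
    (Bool.rec false
      (cmp (fld x (Nat.add u 162)) ga ml r AX (fld X (Nat.mod (Nat.add ix 162) 243)) BY
        (fld Y (Nat.mod (Nat.add iy (Nat.add dy dy)) 243)))
      (cmp (fld x (Nat.add u 81)) ga ml r AX (fld X (Nat.mod (Nat.add ix 81) 243)) BY
        (fld Y (Nat.mod (Nat.add iy dy) 243))))
    (cmp (fld x u) ga ml r AX (fld X (Nat.mod ix 243)) BY (fld Y (Nat.mod iy 243)))

/-- the loop over a block -/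
noncomputable def loop (f : ℕ → Bool) (n : ℕ) : Bool :=
  Nat.rec true (fun u ih => Bool.rec false ih (f u)) n

/-- the check of a block -/
noncomputable def blk (x Lb p X q Y BY cy q2 dy : ℕ) : Bool :=
  Bool.rec false
    (loop (fun u => cmp3 x (mlt x) (Nat.mul (mlt Lb) (fld Lb (Nat.add p (Nat.mul 3 u))))
      (Nat.mul 1000050 (mlt x)) X (Nat.mul 295070 (mlt X)) (Nat.add (Nat.mul 4 u) q) Y
      (Nat.mul BY (mlt Y)) (Nat.add (Nat.mul cy u) q2) dy u) 81)
    (Nat.ble 1 (mlt x))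

/-- the check at one index -/
noncomputable def chk (V L : Tr) (a : ℕ) : Bool :=
  Bool.rec
    (Nat.rec
      (blk (V.get a) (L.get (Nat.mod a 6561)) (Nat.div a 6561)
        (V.get (Nat.mod (Nat.add (Nat.mul 4 a) 2) 19683)) (Nat.div (Nat.add (Nat.mul 4 a) 2) 19683)
        (L.get (Nat.mod (Nat.mul 4 (Nat.div a 3)) 6561)) 776246 4
        (Nat.div (Nat.mul 4 (Nat.div a 3)) 6561) 81)
      (fun r _ => Nat.rec
        (blk (V.get a) (L.get (Nat.mod a 6561)) (Nat.div a 6561)
          (V.get (Nat.mod (Nat.add (Nat.mul 4 a) 2) 19683))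
          (Nat.div (Nat.add (Nat.mul 4 a) 2) 19683) 0 0 0 0 0)
        (fun _ _ =>
          blk (V.get a) (L.get (Nat.mod a 6561)) (Nat.div a 6561)
            (V.get (Nat.mod (Nat.add (Nat.mul 4 a) 2) 19683))
            (Nat.div (Nat.add (Nat.mul 4 a) 2) 19683)
            (L.get (Nat.mod (Nat.add (Nat.mul 2 (Nat.div a 3)) 1) 6561)) 1429014 2
            (Nat.div (Nat.add (Nat.mul 2 (Nat.div a 3)) 1) 6561) 162) r)
      (Nat.mod a 3))
    true (Nat.ble 19683 a)

/-- check all of `[lo, lo + 2 ^ k)` -/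
noncomputable def allUpto (f : ℕ → Bool) (k : ℕ) : ℕ → Bool :=
  Nat.rec (motive := fun _ => ℕ → Bool) (fun lo => f lo)
    (fun k ih lo => Bool.rec false (ih (Nat.add lo (Nat.pow 2 k))) (ih lo)) k

end Pool.Agent.K6.H13.KL
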