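import Pool.Agent.Helper894.Three.Tree

set_option autoImplicit false

namespace Pool.Agent.K6.H13.KL

open Pool.Agent.Helper894.Three

/-- one odd inverse step -/
theorem inv_step {x y : ℤ} {j : ℕ} (h : 3 * x + 1 = 2 ^ (j + 1) * y) : T^[j + 1] x = y := by
  have h2 : (2 : ℤ) ^ (j + 1) * y = 2 * (2 ^ j * y) := by ring
  have h3 : T x = 2 ^ j * y := by
    unfold T
    rw [if_neg (by omega)]
    omega
  rw [Function.iterate_succ_apply, h3, T_pow]

/-- words in the inverse tree -/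
theorem word (n : ℕ) : ∀ (x y : ℤ) (e0 : ℕ) (e : ℕ → ℕ), (0 < n → e 0 < e0) →
    (∀ i, i + 1 < n → e (i + 1) < e i) →
    3 ^ n * x = 2 ^ e0 * y - ∑ i ∈ Finset.range n, 3 ^ i * 2 ^ (e i) → T^[e0] x = y := by
  induction n with
  | zero =>
    intro x y e0 e _ _ h
    have h1 : x = 2 ^ e0 * y := by simpa using h
    rw [h1, T_pow]
  | succ n ih =>
    intro x y e0 e h0 he h
    have h01 := h0 (by omega)
    rw [Finset.sum_range_succ'] at h
    obtain ⟨j, hj⟩ : ∃ j, e0 = e 0 + (j + 1) := ⟨e0 - e 0 - 1, by omega⟩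
    have hs : ∑ i ∈ Finset.range n, (3 : ℤ) ^ (i + 1) * 2 ^ e (i + 1) =
        3 * ∑ i ∈ Finset.range n, 3 ^ i * 2 ^ e (i + 1) := by
      rw [Finset.mul_sum]
      apply Finset.sum_congr rfl
      intro i _
      ring
    rw [hs] at h
    set W := ∑ i ∈ Finset.range n, (3 : ℤ) ^ i * 2 ^ e (i + 1) with hW
    have h3 : (2 : ℤ) ^ (e 0) * (2 ^ (j + 1) * y - 1) = 3 * (3 ^ n * x + W) := by
      have h8 : (2 : ℤ) ^ e0 = 2 ^ (e 0) * 2 ^ (j + 1) := by rw [hj, pow_add]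
      rw [h8, pow_succ 3 n] at h
      simp only [pow_zero, one_mul] at h
      linear_combination (-1) * h
    have hdvd : (3 : ℤ) ∣ 2 ^ (j + 1) * y - 1 := by
      have h4 : (3 : ℤ) ∣ 2 ^ (e 0) * (2 ^ (j + 1) * y - 1) := ⟨_, h3⟩
      have h5 : IsCoprime (3 : ℤ) (2 ^ (e 0)) := by
        apply IsCoprime.pow_right
        rw [Int.isCoprime_iff_gcd_eq_one]
        rfl
      exact h5.dvd_of_dvd_mul_left h4
    obtain ⟨y1, hy1⟩ := hdvd
    have hy : 3 * y1 + 1 = 2 ^ (j + 1) * y := by linarith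
    have h6 : 3 ^ n * x = 2 ^ (e 0) * y1 - ∑ i ∈ Finset.range n, 3 ^ i * 2 ^ (e (i + 1)) := by
      rw [hy1] at h3
      rw [← hW]
      linarith
    have h7 := ih x y1 (e 0) (fun i => e (i + 1)) (fun hn => he 0 (by omega))
      (fun i hi => he (i + 1) (by omega)) h6
    rw [hj, Nat.add_comm, Function.iterate_add_apply, h7]
    exact inv_step hy

/-- powers of `g = 1 + 3 ^ c h` with `3 ∤ h` run through all classes that are `1` modulo `3 ^ c` -/
theorem hensel {g h : ℤ} {c : ℕ} (hc : 1 ≤ c) (hg : g = 1 + 3 ^ c * h) (hh : ¬ (3 : ℤ) ∣ h)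
    (u R : ℤ) (hu : ¬ (3 : ℤ) ∣ u) (huR : (3 : ℤ) ^ c ∣ R - u) (K : ℕ) :
    ∃ j : ℕ, (3 : ℤ) ^ K ∣ R - g ^ j * u := by
  -- powers of `g`
  have hpow : ∀ k : ℕ, ∃ h' : ℤ, g ^ (3 ^ k) = 1 + 3 ^ (c + k) * h' ∧ ¬ (3 : ℤ) ∣ h' := by
    intro k
    induction k with
    | zero => exact ⟨h, by simpa using hg, hh⟩
    | succ k ih =>
      obtain ⟨h', e, hn⟩ := ih
      obtain ⟨c', rfl⟩ : ∃ c', c = c' + 1 := ⟨c - 1, by omega⟩
      refine ⟨h' + 3 * (3 ^ (c' + k) * h' ^ 2 + 3 ^ (2 * (c' + k)) * h' ^ 3), ?_, ?_⟩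
      · rw [pow_succ 3 k, pow_mul, e]
        have e1 : (3 : ℤ) ^ (c' + 1 + k) = 3 * 3 ^ (c' + k) := by ring
        have e2 : (3 : ℤ) ^ (c' + 1 + (k + 1)) = 9 * 3 ^ (c' + k) := by ring
        have e3 : (3 : ℤ) ^ (2 * (c' + k)) = (3 ^ (c' + k)) ^ 2 := by ring
        rw [e1, e2, e3]
        ring
      · intro hd
        apply hn
        exact (Int.dvd_add_left (Dvd.intro _ rfl)).1 hd
  induction K with
  | zero => exact ⟨0, by simp⟩
  | succ K ih =>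
    rcases Nat.lt_or_ge K c with hK | hK
    · refine ⟨0, ?_⟩
      rw [pow_zero, one_mul]
      exact (pow_dvd_pow 3 (by omega)).trans huR
    · obtain ⟨j, w, hw⟩ := ih
      obtain ⟨h', e, hn⟩ := hpow (K - c)
      rw [show c + (K - c) = K by omega] at e
      -- find `i` with `3 ∣ w - i * h' * g ^ j * u`
      have hgu : ¬ (3 : ℤ) ∣ h' * (g ^ j * u) := by
        have h3 : Prime (3 : ℤ) := Int.prime_three
        intro hd
        rcases h3.dvd_or_dvd hd with h1 | h1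
        · exact hn h1
        · rcases h3.dvd_or_dvd h1 with h2 | h2
          · have h4 : (3 : ℤ) ∣ g := h3.dvd_of_dvd_pow h2
            rw [hg] at h4
            have h5 : (3 : ℤ) ∣ 3 ^ c * h := Dvd.dvd.mul_right (dvd_pow_self 3 (by omega)) h
            have h6 : (3 : ℤ) ∣ 1 := (Int.dvd_add_left h5).1 h4
            omega
          · exact hu h2
      obtain ⟨i, hi⟩ : ∃ i : ℕ, (3 : ℤ) ∣ w - i * (h' * (g ^ j * u)) := by
        set q := h' * (g ^ j * u)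
        have h1 : q % 3 = 1 ∨ q % 3 = 2 := by omega
        have h2 : w % 3 = 0 ∨ w % 3 = 1 ∨ w % 3 = 2 := by omega
        rcases h2 with h2 | h2 | h2
        · exact ⟨0, by push_cast; omega⟩
        · rcases h1 with h1 | h1
          · exact ⟨1, by push_cast; omega⟩
          · exact ⟨2, by push_cast; omega⟩
        · rcases h1 with h1 | h1
          · exact ⟨2, by push_cast; omega⟩
          · exact ⟨1, by push_cast; omega⟩
      refine ⟨3 ^ (K - c) * i + j, ?_⟩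
      have hb : ∀ i : ℕ, ∃ b : ℤ, (1 + 3 ^ K * h') ^ i = 1 + i * (3 ^ K * h') + 3 ^ (K + 1) * b := by
        intro i
        induction i with
        | zero => exact ⟨0, by simp⟩
        | succ i ihi =>
          obtain ⟨b, hb⟩ := ihi
          obtain ⟨K', rfl⟩ : ∃ K', K = K' + 1 := ⟨K - 1, by omega⟩
          refine ⟨b + i * 3 ^ K' * h' ^ 2 + 3 ^ (K' + 1) * h' * b, ?_⟩
          rw [pow_succ, hb]
          push_cast
          ring
      obtain ⟨b, hb⟩ := hb i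
      rw [pow_add g, pow_mul g, e, hb]
      obtain ⟨z, hz⟩ := hi
      refine ⟨z - b * (g ^ j * u), ?_⟩
      have e5 : R - (1 + ↑i * (3 ^ K * h') + 3 ^ (K + 1) * b) * g ^ j * u =
          (R - g ^ j * u) - 3 ^ K * (i * (h' * (g ^ j * u))) - 3 ^ (K + 1) * b * (g ^ j * u) := by
        ring
      rw [e5, hw, show (3 : ℤ) ^ K * w - 3 ^ K * (↑i * (h' * (g ^ j * u))) =
        3 ^ K * (w - i * (h' * (g ^ j * u))) by ring, hz]
      ring

/-- some power of two times `y` is a given residue modulo a power of three -/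
theorem two_pow_mul (y R : ℤ) (hy : ¬ (3 : ℤ) ∣ y) (hR : ¬ (3 : ℤ) ∣ R) (K : ℕ) :
    ∃ e : ℕ, (3 : ℤ) ^ K ∣ R - 2 ^ e * y := by
  obtain ⟨ε, hε⟩ : ∃ ε : ℕ, (3 : ℤ) ∣ R - 2 ^ ε * y := by
    have h1 : y % 3 = 1 ∨ y % 3 = 2 := by omega
    have h2 : R % 3 = 1 ∨ R % 3 = 2 := by omega
    rcases h1 with h1 | h1 <;> rcases h2 with h2 | h2
    · exact ⟨0, by norm_num; omega⟩
    · exact ⟨1, by norm_num; omega⟩
    · exact ⟨1, by norm_num; omega⟩
    · exact ⟨0, by norm_num; omega⟩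
  have hu : ¬ (3 : ℤ) ∣ 2 ^ ε * y := by
    intro h
    apply hR
    have := dvd_add hε h
    rwa [sub_add_cancel] at this
  obtain ⟨j, hj⟩ := hensel (g := 4) (h := 1) (c := 1) le_rfl (by norm_num) (by norm_num)
    (2 ^ ε * y) R hu (by simpa using hε) K
  refine ⟨2 * j + ε, ?_⟩
  rw [pow_add, pow_mul, mul_assoc]
  norm_num at hj ⊢
  exact hj

/-- sums with doubled terms -/
theorem sum_doubled (n : ℕ) (I : Finset ℕ) (hI : I ⊆ Finset.range n) :
    ∑ i ∈ Finset.range n, (3 : ℤ) ^ i * 2 ^ (if i ∈ I then 1 else 0) =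
      ∑ i ∈ Finset.range n, 3 ^ i + ∑ i ∈ I, 3 ^ i := by
  have h1 : ∀ i ∈ Finset.range n, (3 : ℤ) ^ i * 2 ^ (if i ∈ I then 1 else 0) =
      3 ^ i + (if i ∈ I then 3 ^ i else 0) := by
    intro i _
    split_ifs
    · ring
    · ring
  rw [Finset.sum_congr rfl h1, Finset.sum_add_distrib, Finset.sum_ite_mem,
    Finset.inter_eq_right.2 hI]

theorem sum_mod_three (n : ℕ) (hn : 0 < n) : ¬ (3 : ℤ) ∣ ∑ i ∈ Finset.range n, (3 : ℤ) ^ i := by
  obtain ⟨k, rfl⟩ : ∃ k, n = k + 1 := ⟨n - 1, by omega⟩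
  rw [Finset.sum_range_succ']
  have h1 : (3 : ℤ) ∣ ∑ i ∈ Finset.range k, (3 : ℤ) ^ (i + 1) :=
    Finset.dvd_sum fun i _ => dvd_pow_self 3 (by omega)
  intro h
  have h2 := (Int.dvd_add_right h1).1 h
  norm_num at h2

/-- The exponent: powers of two times `y` are prescribed sums. -/
theorem exists_exp {m b : ℕ} (hm : ¬ 3 ∣ m) (hm0 : 0 < m) (hm2 : Nat.Coprime 2 m) (s : ℤ) :
    ∃ n : ℕ, 0 < n ∧ ∀ y : ℤ, ¬ (3 : ℤ) ∣ y → ∃ (I : Finset ℕ) (e : ℕ),
      ((3 ^ (n + b) * m : ℕ) : ℤ) ∣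
        ∑ i ∈ Finset.range n, (3 : ℤ) ^ i * 2 ^ (if i ∈ I then 1 else 0) + 3 ^ n * s -
          2 ^ e * y := by
  obtain ⟨φ, hφ⟩ : ∃ φ, φ = 2 * m.totient := ⟨_, rfl⟩
  have htot : 0 < m.totient := Nat.totient_pos.2 hm0
  have hφ0 : 0 < φ := by omega
  -- powers modulo `m`
  have h2m : (m : ℤ) ∣ 2 ^ φ - 1 := by
    have h1 : 2 ^ φ ≡ 1 [MOD m] := by
      rw [hφ, mul_comm, pow_mul]
      have := (Nat.ModEq.pow_totient hm2).pow 2
      simpa using this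
    have h2 := (Nat.modEq_iff_dvd.1 h1.symm)
    push_cast at h2
    exact h2
  have h3m : (m : ℤ) ∣ 3 ^ φ - 1 := by
    have h3c : Nat.Coprime 3 m := (Nat.Prime.coprime_iff_not_dvd Nat.prime_three).2 hm
    have h1 : 3 ^ φ ≡ 1 [MOD m] := by
      rw [hφ, mul_comm, pow_mul]
      have := (Nat.ModEq.pow_totient h3c).pow 2
      simpa using this
    have h2 := (Nat.modEq_iff_dvd.1 h1.symm)
    push_cast at h2
    exact h2
  -- the base
  obtain ⟨c, h, hh, hch⟩ : ∃ (c : ℕ) (h : ℤ), ¬ (3 : ℤ) ∣ h ∧ (2 : ℤ) ^ φ - 1 = 3 ^ c * h := by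
    have hne : 2 ^ φ - 1 ≠ 0 := by
      have : 2 ^ 1 ≤ 2 ^ φ := Nat.pow_le_pow_right (by norm_num) hφ0
      omega
    obtain ⟨c, h, h1, h2⟩ := Nat.exists_eq_pow_mul_and_not_dvd hne 3 (by norm_num)
    refine ⟨c, h, by exact_mod_cast h1, ?_⟩
    have h3 : 1 ≤ 2 ^ φ := Nat.one_le_two_pow
    have h4 : ((2 ^ φ - 1 : ℕ) : ℤ) = 2 ^ φ - 1 := by push_cast [Nat.cast_sub h3]; ring
    rw [← h4, h2]
    push_cast
    ring
  have hc : 1 ≤ c := by
    by_contra hc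
    have hc0 : c = 0 := by omega
    rw [hc0, pow_zero, one_mul] at hch
    apply hh
    rw [← hch, hφ, pow_mul]
    have : ∀ k : ℕ, (3 : ℤ) ∣ (2 ^ 2) ^ k - 1 := by
      intro k
      have := sub_dvd_pow_sub_pow ((2 : ℤ) ^ 2) 1 k
      norm_num at this
      norm_num
      exact this
    exact this _
  obtain ⟨n, hn⟩ : ∃ n, n = φ * (c + m) + 1 := ⟨_, rfl⟩
  have hcn : c ≤ n := by
    have : 1 * (c + m) ≤ φ * (c + m) := Nat.mul_le_mul_right _ hφ0
    omega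
  refine ⟨n, by omega, fun y hy => ?_⟩
  set G : ℤ := ∑ i ∈ Finset.range n, (3 : ℤ) ^ i with hG
  obtain ⟨e1, he1⟩ := two_pow_mul y G hy (sum_mod_three n (by omega)) c
  obtain ⟨k, hk⟩ : ∃ k : ℕ, (k : ℤ) = (2 ^ e1 * y - G - 3 ^ n * s) % m := by
    have h1 : 0 ≤ (2 ^ e1 * y - G - 3 ^ n * s) % (m : ℤ) := Int.emod_nonneg _ (by omega)
    exact ⟨_, Int.toNat_of_nonneg h1⟩
  have hkm : k < m := by
    have h1 : (2 ^ e1 * y - G - 3 ^ n * s) % (m : ℤ) < m := Int.emod_lt_of_pos _ (by omega)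
    omega
  obtain ⟨I, hI⟩ : ∃ I, I = (Finset.range k).image (fun l => φ * (c + l)) := ⟨_, rfl⟩
  have hIn : I ⊆ Finset.range n := by
    rw [hI]
    intro i hi
    obtain ⟨l, hl, rfl⟩ := Finset.mem_image.1 hi
    rw [Finset.mem_range] at hl ⊢
    rw [hn]
    have : φ * (c + l) ≤ φ * (c + m) := Nat.mul_le_mul_left _ (by omega)
    omega
  have hIsum : ∑ i ∈ I, (3 : ℤ) ^ i = ∑ l ∈ Finset.range k, 3 ^ (φ * (c + l)) := by
    rw [hI, Finset.sum_image]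
    intro l1 _ l2 _ h12
    have h13 : φ * (c + l1) = φ * (c + l2) := h12
    have := Nat.eq_of_mul_eq_mul_left hφ0 h13
    omega
  have hsum := sum_doubled n I hIn
  set R : ℤ := ∑ i ∈ Finset.range n, (3 : ℤ) ^ i * 2 ^ (if i ∈ I then 1 else 0) + 3 ^ n * s with hR
  have hRG : R = G + ∑ l ∈ Finset.range k, 3 ^ (φ * (c + l)) + 3 ^ n * s := by
    rw [hR, hsum, hIsum]
  -- modulo `3 ^ c`
  have hu3 : (3 : ℤ) ^ c ∣ R - 2 ^ e1 * y := by
    have h1 : R - 2 ^ e1 * y = (G - 2 ^ e1 * y) + ∑ l ∈ Finset.range k, 3 ^ (φ * (c + l)) +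
        3 ^ n * s := by rw [hRG]; ring
    rw [h1]
    refine dvd_add (dvd_add he1 (Finset.dvd_sum fun l _ => pow_dvd_pow 3 ?_))
      (Dvd.dvd.mul_right (pow_dvd_pow 3 hcn) s)
    have : 1 * (c + l) ≤ φ * (c + l) := Nat.mul_le_mul_right _ hφ0
    omega
  -- modulo `m`
  have hum : (m : ℤ) ∣ R - 2 ^ e1 * y := by
    have h1 : R - 2 ^ e1 * y = ((k : ℤ) - (2 ^ e1 * y - G - 3 ^ n * s)) +
        ∑ l ∈ Finset.range k, ((3 : ℤ) ^ (φ * (c + l)) - 1) := by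
      rw [hRG, Finset.sum_sub_distrib]
      simp
      ring
    rw [h1]
    refine dvd_add ?_ (Finset.dvd_sum fun l _ => ?_)
    · rw [hk]
      have := Int.emod_add_mul_ediv (2 ^ e1 * y - G - 3 ^ n * s) (m : ℤ)
      exact ⟨-((2 ^ e1 * y - G - 3 ^ n * s) / m), by linarith⟩
    · rw [pow_mul]
      have := sub_dvd_pow_sub_pow ((3 : ℤ) ^ φ) 1 (c + l)
      rw [one_pow] at this
      exact h3m.trans this
  have hu : ¬ (3 : ℤ) ∣ 2 ^ e1 * y := by
    intro hd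
    rcases Int.prime_three.dvd_or_dvd hd with h1 | h1
    · have := Int.prime_three.dvd_of_dvd_pow h1
      norm_num at this
    · exact hy h1
  obtain ⟨j, hj⟩ := hensel (g := 2 ^ φ) (h := h) hc (by linarith) hh (2 ^ e1 * y) R hu hu3 (n + b)
  refine ⟨I, φ * j + e1, ?_⟩
  rw [← hR, pow_add (2 : ℤ), pow_mul (2 : ℤ), mul_assoc]
  have hjm : (m : ℤ) ∣ R - (2 ^ φ) ^ j * (2 ^ e1 * y) := by
    have h1 : R - (2 ^ φ) ^ j * (2 ^ e1 * y) = (R - 2 ^ e1 * y) -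
        ((2 ^ φ) ^ j - 1 ^ j) * (2 ^ e1 * y) := by rw [one_pow]; ring
    rw [h1]
    exact dvd_sub hum (Dvd.dvd.mul_right (h2m.trans (sub_dvd_pow_sub_pow _ 1 j)) _)
  have hcop : IsCoprime ((3 : ℤ) ^ (n + b)) (m : ℤ) := by
    apply IsCoprime.pow_left
    rw [Int.isCoprime_iff_gcd_eq_one]
    have := (Nat.Prime.coprime_iff_not_dvd Nat.prime_three).2 hm
    exact_mod_cast this
  have := hcop.mul_dvd hj hjm
  push_cast
  exact this

theorem two_pow_period {Q : ℕ} (hQ2 : Nat.Coprime 2 Q) (k : ℕ) :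
    (Q : ℤ) ∣ 2 ^ (2 * Q.totient * k) - 1 := by
  have h1 : 2 ^ (2 * Q.totient * k) ≡ 1 [MOD Q] := by
    rw [show 2 * Q.totient * k = Q.totient * (2 * k) by ring, pow_mul]
    have := (Nat.ModEq.pow_totient hQ2).pow (2 * k)
    simpa using this
  have h2 := (Nat.modEq_iff_dvd.1 h1.symm)
  push_cast at h2
  exact h2

/-- Every residue class modulo an odd number contains a node of the tree of `y` of size `O(|y|)`. -/
theorem odd_classes {N : ℕ} (hN0 : 0 < N) (hN : Nat.Coprime 2 N) (s : ℤ) :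
    ∃ (C : ℤ) (M : ℕ), 0 < C ∧ ∀ y : ℤ, ¬ (3 : ℤ) ∣ y → ∃ x : ℤ, (∃ k ≤ M, T^[k] x = y) ∧
      (N : ℤ) ∣ x - s ∧ |x| ≤ C * |y| := by
  obtain ⟨b, m, hm, hNm⟩ := Nat.exists_eq_pow_mul_and_not_dvd (show N ≠ 0 by omega) 3 (by norm_num)
  have hm0 : 0 < m := Nat.pos_of_ne_zero (by rintro rfl; simp at hm)
  have hm2 : Nat.Coprime 2 m := Nat.Coprime.coprime_dvd_right ⟨3 ^ b, by rw [hNm]; ring⟩ hN
  obtain ⟨n, hn, hex⟩ := exists_exp (b := b) hm hm0 hm2 s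
  obtain ⟨Q, hQ⟩ : ∃ Q, Q = 3 ^ (n + b) * m := ⟨_, rfl⟩
  have hQN : Q = 3 ^ n * N := by rw [hQ, hNm]; ring
  have hQ2 : Nat.Coprime 2 Q := by
    rw [hQ]
    exact Nat.Coprime.mul_right (Nat.Coprime.pow_right _ (by norm_num)) hm2
  have hQ0 : 0 < Q := by rw [hQN]; positivity
  obtain ⟨P, hP⟩ : ∃ P, P = 2 * Q.totient := ⟨_, rfl⟩
  have htot : 0 < Q.totient := Nat.totient_pos.2 hQ0
  have hP2 : 2 ≤ P := by omega
  rw [← hQ] at hex
  refine ⟨2 ^ (P * (n + 1)) + n * (3 ^ n * 2 ^ (P * n)), P * (n + 1), by positivity,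
    fun y hy => ?_⟩
  obtain ⟨I, e1, he1⟩ := hex y hy
  obtain ⟨ε, hε⟩ : ∃ ε : ℕ → ℕ, ε = fun i => if i ∈ I then 1 else 0 := ⟨_, rfl⟩
  have hε1 : ∀ i, ε i ≤ 1 := by
    intro i
    rw [hε]
    dsimp only
    split_ifs <;> omega
  obtain ⟨e, he⟩ : ∃ e : ℕ → ℕ, e = fun i => P * (n - 1 - i) + ε i := ⟨_, rfl⟩
  obtain ⟨e0, he0⟩ : ∃ e0, e0 = e1 % P + P * n := ⟨_, rfl⟩
  have hmodP : e1 % P < P := Nat.mod_lt _ (by omega)
  have hy0 : y ≠ 0 := by rintro rfl; exact hy (dvd_zero _)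
  have hy1 : 1 ≤ |y| := Int.one_le_abs hy0
  -- the sum modulo `Q`
  have hsumQ : (Q : ℤ) ∣ ∑ i ∈ Finset.range n, (3 : ℤ) ^ i * 2 ^ (e i) -
      ∑ i ∈ Finset.range n, (3 : ℤ) ^ i * 2 ^ (if i ∈ I then 1 else 0) := by
    rw [← Finset.sum_sub_distrib]
    refine Finset.dvd_sum fun i _ => ?_
    have h1 : (3 : ℤ) ^ i * 2 ^ e i - 3 ^ i * 2 ^ (if i ∈ I then 1 else 0) =
        3 ^ i * 2 ^ (ε i) * (2 ^ (2 * Q.totient * (n - 1 - i)) - 1) := by
      rw [he, hε, hP]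
      dsimp only
      rw [pow_add]
      ring
    rw [h1]
    exact Dvd.dvd.mul_left (two_pow_period hQ2 _) _
  have hpowQ : (Q : ℤ) ∣ 2 ^ e0 * y - 2 ^ e1 * y := by
    have h1 : e1 = e1 % P + P * (e1 / P) := (Nat.mod_add_div e1 P).symm
    have h2 : (2 : ℤ) ^ e0 * y - 2 ^ e1 * y = 2 ^ (e1 % P) * y *
        ((2 ^ (2 * Q.totient * n) - 1) - (2 ^ (2 * Q.totient * (e1 / P)) - 1)) := by
      rw [← hP]
      conv_lhs => rw [h1]
      rw [he0, pow_add, pow_add]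
      ring
    rw [h2]
    exact Dvd.dvd.mul_left (dvd_sub (two_pow_period hQ2 _) (two_pow_period hQ2 _)) _
  have hall : (Q : ℤ) ∣ 2 ^ e0 * y - ∑ i ∈ Finset.range n, (3 : ℤ) ^ i * 2 ^ (e i) -
      3 ^ n * s := by
    have h1 := dvd_sub (dvd_sub hpowQ hsumQ) he1
    have h2 : 2 ^ e0 * y - 2 ^ e1 * y - (∑ i ∈ Finset.range n, (3 : ℤ) ^ i * 2 ^ (e i) -
        ∑ i ∈ Finset.range n, (3 : ℤ) ^ i * 2 ^ (if i ∈ I then 1 else 0)) -
        (∑ i ∈ Finset.range n, (3 : ℤ) ^ i * 2 ^ (if i ∈ I then 1 else 0) + 3 ^ n * s -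
          2 ^ e1 * y) = 2 ^ e0 * y - ∑ i ∈ Finset.range n, (3 : ℤ) ^ i * 2 ^ (e i) -
      3 ^ n * s := by ring
    rw [← h2]
    exact h1
  obtain ⟨w, hw⟩ := hall
  obtain ⟨x, hx⟩ : ∃ x, x = s + N * w := ⟨_, rfl⟩
  have hxe : 3 ^ n * x = 2 ^ e0 * y - ∑ i ∈ Finset.range n, (3 : ℤ) ^ i * 2 ^ (e i) := by
    rw [hQN] at hw
    push_cast at hw
    rw [hx]
    linear_combination (-1) * hw
  refine ⟨x, ⟨e0, by rw [he0, Nat.mul_succ]; omega, ?_⟩, ⟨w, by rw [hx]; ring⟩, ?_⟩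
  · apply word n x y e0 e _ _ hxe
    · intro _
      rw [he, he0]
      dsimp only
      have h1 := hε1 0
      have h2 : P * n = P * (n - 1) + P := by
        obtain ⟨k, rfl⟩ : ∃ k, n = k + 1 := ⟨n - 1, by omega⟩
        rw [Nat.add_sub_cancel]; ring
      rw [Nat.sub_zero]
      omega
    · intro i hi
      rw [he]
      dsimp only
      have h1 := hε1 (i + 1)
      have h2 : P * (n - 1 - i) = P * (n - 1 - (i + 1)) + P := by
        rw [show n - 1 - i = (n - 1 - (i + 1)) + 1 by omega]; ring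
      omega
  · -- the bound
    have h1 : |x| ≤ |3 ^ n * x| := by
      rw [abs_mul, abs_of_pos (by positivity : (0 : ℤ) < 3 ^ n)]
      have h3 : (1 : ℤ) ≤ 3 ^ n := one_le_pow₀ (by norm_num)
      nlinarith [abs_nonneg x]
    have h2 : |∑ i ∈ Finset.range n, (3 : ℤ) ^ i * 2 ^ (e i)| ≤ n * (3 ^ n * 2 ^ (P * n)) := by
      rw [abs_of_nonneg (Finset.sum_nonneg fun i _ => by positivity)]
      calc ∑ i ∈ Finset.range n, (3 : ℤ) ^ i * 2 ^ (e i)
          ≤ ∑ i ∈ Finset.range n, (3 : ℤ) ^ n * 2 ^ (P * n) := by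
            apply Finset.sum_le_sum
            intro i hi
            rw [Finset.mem_range] at hi
            apply mul_le_mul (pow_le_pow_right₀ (by norm_num) hi.le) _ (by positivity)
              (by positivity)
            apply pow_le_pow_right₀ (by norm_num)
            rw [he]
            dsimp only
            have h3 := hε1 i
            have h4 : P * (n - 1 - i) + P ≤ P * n := by
              have : P * (n - 1 - i) + P = P * (n - 1 - i + 1) := by ring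
              rw [this]
              exact Nat.mul_le_mul_left _ (by omega)
            omega
        _ = n * (3 ^ n * 2 ^ (P * n)) := by simp
    have h3 : |2 ^ e0 * y| ≤ 2 ^ (P * (n + 1)) * |y| := by
      rw [abs_mul, abs_of_pos (by positivity : (0 : ℤ) < 2 ^ e0)]
      apply mul_le_mul_of_nonneg_right _ (abs_nonneg _)
      apply pow_le_pow_right₀ (by norm_num)
      rw [he0]
      have : P * (n + 1) = P * n + P := by ring
      omega
    have h4 : |3 ^ n * x| ≤ |2 ^ e0 * y| + |∑ i ∈ Finset.range n, (3 : ℤ) ^ i * 2 ^ (e i)| := by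
      rw [hxe]
      exact abs_sub _ _
    have h5 : (0 : ℤ) ≤ n * (3 ^ n * 2 ^ (P * n)) := by positivity
    nlinarith

/-- the first steps of all numbers in a class modulo a power of two -/
theorem lift_two (A : ℕ) : ∀ r : ℤ, ∃ k : ℕ, ∀ t : ℤ, T^[A] (r + 2 ^ A * t) = T^[A] r + 3 ^ k * t := by
  induction A with
  | zero => intro r; exact ⟨0, fun t => by simp⟩
  | succ A ih =>
    intro r
    rcases Int.even_or_odd' r with ⟨c, hc | hc⟩
    · obtain ⟨k, hk⟩ := ih c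
      refine ⟨k, fun t => ?_⟩
      rw [Function.iterate_succ_apply, Function.iterate_succ_apply]
      have h1 : T (r + 2 ^ (A + 1) * t) = c + 2 ^ A * t := by
        rw [hc, show 2 * c + 2 ^ (A + 1) * t = 2 * (c + 2 ^ A * t) by ring]
        exact T_two_mul _
      have h2 : T r = c := by rw [hc]; exact T_two_mul _
      rw [h1, h2, hk]
    · obtain ⟨k, hk⟩ := ih (3 * c + 2)
      refine ⟨k + 1, fun t => ?_⟩
      rw [Function.iterate_succ_apply, Function.iterate_succ_apply]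
      have h1 : T (r + 2 ^ (A + 1) * t) = (3 * c + 2) + 2 ^ A * (3 * t) := by
        rw [hc, show 2 * c + 1 + 2 ^ (A + 1) * t = 2 * (c + 2 ^ A * t) + 1 by ring, T_odd]
        ring
      have h2 : T r = 3 * c + 2 := by rw [hc]; exact T_odd _
      rw [h1, h2, hk]
      ring

/-- Every residue class contains a node of the tree of `y` of size `O(|y|)`. -/
theorem all_classes {m : ℕ} (hm : 0 < m) (r : ℤ) :
    ∃ (C : ℤ) (M : ℕ), 0 < C ∧ ∀ y : ℤ, ¬ (3 : ℤ) ∣ y → ∃ x : ℤ, (∃ k ≤ M, T^[k] x = y) ∧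
      (m : ℤ) ∣ x - r ∧ |x| ≤ C * |y| := by
  obtain ⟨A, N, hN, hmN⟩ := Nat.exists_eq_pow_mul_and_not_dvd (show m ≠ 0 by omega) 2 (by norm_num)
  have hN0 : 0 < N := Nat.pos_of_ne_zero (by rintro rfl; simp at hN)
  have hN2 : Nat.Coprime 2 N := (Nat.Prime.coprime_iff_not_dvd Nat.prime_two).2 hN
  obtain ⟨k, hk⟩ := lift_two A r
  have hQ0 : 0 < 3 ^ k * N := by positivity
  have hQ2 : Nat.Coprime 2 (3 ^ k * N) :=
    Nat.Coprime.mul_right (Nat.Coprime.pow_right _ (by norm_num)) hN2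
  obtain ⟨C, M, hC, hB⟩ := odd_classes hQ0 hQ2 (T^[A] r)
  refine ⟨|r| + 2 ^ A * (C + |T^[A] r|), M + A, by positivity, fun y hy => ?_⟩
  obtain ⟨z, ⟨l, hl, hz⟩, ⟨w, hw⟩, hzb⟩ := hB y hy
  have hy0 : y ≠ 0 := by rintro rfl; exact hy (dvd_zero _)
  have hy1 : 1 ≤ |y| := Int.one_le_abs hy0
  refine ⟨r + 2 ^ A * (N * w), ⟨l + A, by omega, ?_⟩, ⟨w, by rw [hmN]; push_cast; ring⟩, ?_⟩
  · rw [Function.iterate_add_apply, hk, ← hz]
    congr 1
    push_cast at hw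
    linarith
  · have h1 : |(N : ℤ) * w| ≤ |z - T^[A] r| := by
      rw [hw]
      push_cast
      rw [mul_assoc, abs_mul ((3 : ℤ) ^ k), abs_of_pos (by positivity : (0 : ℤ) < 3 ^ k)]
      have h3 : (1 : ℤ) ≤ 3 ^ k := one_le_pow₀ (by norm_num)
      nlinarith [abs_nonneg ((N : ℤ) * w)]
    have h2 : |z - T^[A] r| ≤ |z| + |T^[A] r| := abs_sub _ _
    have h3 : |r + 2 ^ A * (N * w)| ≤ |r| + |2 ^ A * (N * w)| := abs_add_le _ _
    have h4 : |(2 : ℤ) ^ A * (N * w)| = 2 ^ A * |(N : ℤ) * w| := by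
      rw [abs_mul, abs_of_pos (by positivity : (0 : ℤ) < 2 ^ A)]
    have h5 : (0 : ℤ) < 2 ^ A := by positivity
    have h6 : |(N : ℤ) * w| ≤ (C + |T^[A] r|) * |y| := by
      nlinarith [abs_nonneg (T^[A] r)]
    calc |r + 2 ^ A * (N * w)| ≤ |r| + 2 ^ A * |(N : ℤ) * w| := by rw [← h4]; exact h3
      _ ≤ |r| * |y| + 2 ^ A * ((C + |T^[A] r|) * |y|) := by
        apply add_le_add
        · nlinarith [abs_nonneg r]
        · exact mul_le_mul_of_nonneg_left h6 h5.le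
      _ = (|r| + 2 ^ A * (C + |T^[A] r|)) * |y| := by ring

end Pool.Agent.K6.H13.KL
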