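import Pool.Agent.K6.H13.KL.DataL
import Pool.Agent.K6.H13.KL.DataV0
import Pool.Agent.K6.H13.KL.DataV1
import Pool.Agent.K6.H13.KL.DataV2

set_option autoImplicit false
set_option maxRecDepth 100000

namespace Pool.Agent.K6.H13.KL

/-- the table of values -/
noncomputable def vt : Tr := (.nd (.nd (.nd (.nd (.nd vt_0 vt_81 vt_162) (.nd vt_27 vt_108 vt_189) (.nd vt_54 vt_135 vt_216)) (.nd (.nd vt_9 vt_90 vt_171) (.nd vt_36 vt_117 vt_198) (.nd vt_63 vt_144 vt_225)) (.nd (.nd vt_18 vt_99 vt_180) (.nd vt_45 vt_126 vt_207) (.nd vt_72 vt_153 vt_234))) (.nd (.nd (.nd vt_3 vt_84 vt_165) (.nd vt_30 vt_111 vt_192) (.nd vt_57 vt_138 vt_219)) (.nd (.nd vt_12 vt_93 vt_174) (.nd vt_39 vt_120 vt_201) (.nd vt_66 vt_147 vt_228)) (.nd (.nd vt_21 vt_102 vt_183) (.nd vt_48 vt_129 vt_210) (.nd vt_75 vt_156 vt_237))) (.nd (.nd (.nd vt_6 vt_87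 vt_168) (.nd vt_33 vt_114 vt_195) (.nd vt_60 vt_141 vt_222)) (.nd (.nd vt_15 vt_96 vt_177) (.nd vt_42 vt_123 vt_204) (.nd vt_69 vt_150 vt_231)) (.nd (.nd vt_24 vt_105 vt_186) (.nd vt_51 vt_132 vt_213) (.nd vt_78 vt_159 vt_240)))) (.nd (.nd (.nd (.nd vt_1 vt_82 vt_163) (.nd vt_28 vt_109 vt_190) (.nd vt_55 vt_136 vt_217)) (.nd (.nd vt_10 vt_91 vt_172) (.nd vt_37 vt_118 vt_199) (.nd vt_64 vt_145 vt_226)) (.nd (.nd vt_19 vt_100 vt_181) (.nd vt_46 vt_127 vt_208) (.nd vt_73 vt_154 vt_235))) (.nd (.nd (.nd vt_4 vt_85 vt_166) (.nd vt_31 vt_112 vt_193) (.nd vt_58 vt_139 vt_220)) (.nd (.nd vt_13 vt_94 vt_175) (.nd vt_40 vt_121 vt_202) (.nd vt_67 vt_148 vt_229)) (.nd (.nd vt_22 vt_103 vt_184) (.nd vt_49 vt_130 vt_211) (.nd vt_76 vt_157 vt_238))) (.nd (.nd (.nd vt_7 vt_88 vt_169) (.nd vt_34 vt_115 vt_196) (.nd vt_61 vt_142 vt_223))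 (.nd (.nd vt_16 vt_97 vt_178) (.nd vt_43 vt_124 vt_205) (.nd vt_70 vt_151 vt_232)) (.nd (.nd vt_25 vt_106 vt_187) (.nd vt_52 vt_133 vt_214) (.nd vt_79 vt_160 vt_241)))) (.nd (.nd (.nd (.nd vt_2 vt_83 vt_164) (.nd vt_29 vt_110 vt_191) (.nd vt_56 vt_137 vt_218)) (.nd (.nd vt_11 vt_92 vt_173) (.nd vt_38 vt_119 vt_200) (.nd vt_65 vt_146 vt_227)) (.nd (.nd vt_20 vt_101 vt_182) (.nd vt_47 vt_128 vt_209) (.nd vt_74 vt_155 vt_236))) (.nd (.nd (.nd vt_5 vt_86 vt_167) (.nd vt_32 vt_113 vt_194) (.nd vt_59 vt_140 vt_221)) (.nd (.nd vt_14 vt_95 vt_176) (.nd vt_41 vt_122 vt_203) (.nd vt_68 vt_149 vt_230)) (.nd (.nd vt_23 vt_104 vt_185) (.nd vt_50 vt_131 vt_212) (.nd vt_77 vt_158 vt_239))) (.nd (.nd (.nd vt_8 vt_89 vt_170) (.nd vt_35 vt_116 vt_197) (.nd vt_62 vt_143 vt_224)) (.nd (.nd vt_17 vt_98 vt_179) (.nd vt_44 vt_125 vt_206) (.nd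 vt_71 vt_152 vt_233)) (.nd (.nd vt_26 vt_107 vt_188) (.nd vt_53 vt_134 vt_215) (.nd vt_80 vt_161 vt_242)))))

end Pool.Agent.K6.H13.KL
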