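import Pool.Agent.K6.H13.KL.Check

set_option autoImplicit false

namespace Pool.Agent.K6.H13.KL

theorem allUpto_spec (f : ℕ → Bool) (k lo : ℕ) (h : allUpto f k lo = true) :
    ∀ t, lo ≤ t → t < lo + 2 ^ k → f t = true := by
  induction k generalizing lo with
  | zero =>
    intro t h1 h2
    have : t = lo := by simp at h2; omega
    rw [this]; exact h
  | succ k ih =>
    have h' : (Bool.rec false (allUpto f k (lo + 2 ^ k)) (allUpto f k lo) : Bool) = true := h
    cases h3 : allUpto f k lo with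
    | false => rw [h3] at h'; exact absurd h' (by simp)
    | true =>
      rw [h3] at h'
      intro t h1 h2
      rw [pow_succ] at h2
      rcases Nat.lt_or_ge t (lo + 2 ^ k) with h4 | h4
      · exact ih lo h3 t h1 h4
      · exact ih _ h' t h4 (by omega)

theorem and_rec {a b : Bool} (h : (Bool.rec false a b : Bool) = true) : a = true ∧ b = true := by
  cases b with
  | false => exact absurd h (by simp)
  | true => exact ⟨h, rfl⟩

theorem cmp_spec {c ga ml r AX fx BY fy : ℕ} (hh : cmp c ga ml r AX fx BY fy = true) :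
    1 ≤ c ∧ ml ≤ ga * c ∧ r * c ≤ AX * fx + BY * fy := by
  obtain ⟨h1, h2⟩ := and_rec hh
  obtain ⟨h3, h4⟩ := and_rec h1
  exact ⟨Nat.le_of_ble_eq_true h2, Nat.le_of_ble_eq_true h4, Nat.le_of_ble_eq_true h3⟩

theorem cmp3_spec {x ga ml r X AX ix Y BY iy dy u : ℕ}
    (hh : cmp3 x ga ml r X AX ix Y BY iy dy u = true) : ∀ j < 3,
    1 ≤ fld x (u + 81 * j) ∧ ml ≤ ga * fld x (u + 81 * j) ∧
      r * fld x (u + 81 * j) ≤ AX * fld X ((ix + 81 * j) % 243) +
        BY * fld Y ((iy + dy * j) % 243) := by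
  obtain ⟨h1, h0⟩ := and_rec hh
  obtain ⟨h2, h1⟩ := and_rec h1
  intro j hj
  interval_cases j
  · rw [Nat.mul_zero, Nat.mul_zero, Nat.add_zero, Nat.add_zero, Nat.add_zero]
    exact cmp_spec h0
  · rw [Nat.mul_one, Nat.mul_one]
    exact cmp_spec h1
  · rw [show 81 * 2 = 162 by norm_num, show dy * 2 = dy + dy by ring]
    exact cmp_spec h2

theorem loop_spec {f : ℕ → Bool} {n : ℕ} (h : loop f n = true) : ∀ u < n, f u = true := by
  induction n with
  | zero => intro u hu; omega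
  | succ n ih =>
    have h' : (Bool.rec false (loop f n) (f n) : Bool) = true := h
    obtain ⟨h1, h2⟩ := and_rec h'
    intro u hu
    rcases Nat.lt_or_ge u n with h3 | h3
    · exact ih h1 u h3
    · rw [show u = n by omega]
      exact h2

theorem blk_spec {x Lb p X q Y BY cy q2 dy : ℕ} (h : blk x Lb p X q Y BY cy q2 dy = true) :
    1 ≤ mlt x ∧ ∀ u < 81, ∀ j < 3,
    1 ≤ fld x (u + 81 * j) ∧ mlt Lb * fld Lb (p + 3 * u) ≤ mlt x * fld x (u + 81 * j) ∧
      1000050 * mlt x * fld x (u + 81 * j) ≤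
        295070 * mlt X * fld X ((4 * u + q + 81 * j) % 243) +
        BY * mlt Y * fld Y ((cy * u + q2 + dy * j) % 243) := by
  obtain ⟨h1, h2⟩ := and_rec h
  refine ⟨Nat.le_of_ble_eq_true h2, fun u hu j hj => ?_⟩
  exact cmp3_spec (loop_spec h1 u hu) j hj

/-- the value of the table of blocks -/
noncomputable def val (T : Tr) (n t : ℕ) : ℕ := mlt (T.get (t % n)) * fld (T.get (t % n)) (t / n)

theorem val_eq (T : Tr) (n t a i : ℕ) (h1 : t % n = a) (h2 : t / n = i) :
    val T n t = mlt (T.get a) * fld (T.get a) i := by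
  unfold val
  rw [h1, h2]

theorem val_le (T : Tr) (n t : ℕ) : val T n t ≤ 65535 * 8191 := by
  have h1 : mlt (T.get (t % n)) < 65536 := Nat.mod_lt _ (by norm_num)
  have h2 : fld (T.get (t % n)) (t / n) < 8192 := Nat.mod_lt _ (by norm_num)
  exact Nat.mul_le_mul (by omega) (by omega)

/-- the second term of the certificate inequality -/
def term (L : ℕ → ℕ) (b0 b1 u r : ℕ) : ℕ :=
  if r = 0 then b1 * L ((4 * u) % 1594323) else
    if r = 1 then 0 else b0 * L ((2 * u + 1) % 1594323)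

theorem red (x y n k : ℕ) (hn : 0 < n) : (x + y * n) % (n * k) % n = x % n ∧
    (x + y * n) % (n * k) / n = (x / n + y) % k := by
  rw [Nat.mod_mul_right_mod, Nat.mod_mul_right_div_self, Nat.add_mul_mod_self_right,
    Nat.add_mul_div_right _ _ hn]
  exact ⟨rfl, rfl⟩

theorem arX (a u j : ℕ) :
    ((4 * (a + 19683 * (u + 81 * j)) + 2) % 4782969) % 19683 = (4 * a + 2) % 19683 ∧
    ((4 * (a + 19683 * (u + 81 * j)) + 2) % 4782969) / 19683 =
      (4 * u + (4 * a + 2) / 19683 + 81 * j) % 243 := by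
  have h := red (4 * a + 2) (4 * (u + 81 * j)) 19683 243 (by norm_num)
  rw [show 4 * (a + 19683 * (u + 81 * j)) + 2 = 4 * a + 2 + 4 * (u + 81 * j) * 19683 by ring]
  refine ⟨h.1, h.2.trans ?_⟩
  generalize (4 * a + 2) / 19683 = w
  omega

theorem arY (a u j : ℕ) :
    ((4 * (a + 6561 * (u + 81 * j))) % 1594323) % 6561 = (4 * a) % 6561 ∧
    ((4 * (a + 6561 * (u + 81 * j))) % 1594323) / 6561 =
      (4 * u + (4 * a) / 6561 + 81 * j) % 243 := by
  have h := red (4 * a) (4 * (u + 81 * j)) 6561 243 (by norm_num)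
  rw [show 4 * (a + 6561 * (u + 81 * j)) = 4 * a + 4 * (u + 81 * j) * 6561 by ring]
  refine ⟨h.1, h.2.trans ?_⟩
  generalize (4 * a) / 6561 = w
  omega

theorem arZ (a u j : ℕ) :
    ((2 * (a + 6561 * (u + 81 * j)) + 1) % 1594323) % 6561 = (2 * a + 1) % 6561 ∧
    ((2 * (a + 6561 * (u + 81 * j)) + 1) % 1594323) / 6561 =
      (2 * u + (2 * a + 1) / 6561 + 162 * j) % 243 := by
  have h := red (2 * a + 1) (2 * (u + 81 * j)) 6561 243 (by norm_num)
  rw [show 2 * (a + 6561 * (u + 81 * j)) + 1 = 2 * a + 1 + 2 * (u + 81 * j) * 6561 by ring]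
  refine ⟨h.1, h.2.trans ?_⟩
  generalize (2 * a + 1) / 6561 = w
  omega

theorem chk_spec {V L : Tr} {a : ℕ} (h : chk V L a = true) (ha : a < 19683) :
    ∀ u < 81, ∀ j < 3, 1 ≤ val V 19683 (a + 19683 * (u + 81 * j)) ∧
      val L 6561 (a + 19683 * u) ≤ val V 19683 (a + 19683 * (u + 81 * j)) ∧
      1000050 * val V 19683 (a + 19683 * (u + 81 * j)) ≤
        295070 * val V 19683 ((4 * (a + 19683 * (u + 81 * j)) + 2) % 4782969) +
        term (val L 6561) 1429014 776246 ((a + 19683 * (u + 81 * j)) / 3)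
          ((a + 19683 * (u + 81 * j)) % 3) := by
  have h0 : Nat.ble 19683 a = false := by
    rw [Bool.eq_false_iff]
    intro h
    have := Nat.le_of_ble_eq_true h
    omega
  unfold chk at h
  rw [h0] at h
  intro u hu j hj
  have eV : val V 19683 (a + 19683 * (u + 81 * j)) =
      mlt (V.get a) * fld (V.get a) (u + 81 * j) := val_eq _ _ _ _ _ (by omega) (by omega)
  have eM : val L 6561 (a + 19683 * u) =
      mlt (L.get (a % 6561)) * fld (L.get (a % 6561)) (a / 6561 + 3 * u) :=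
    val_eq _ _ _ _ _ (by omega) (by omega)
  have eX : val V 19683 ((4 * (a + 19683 * (u + 81 * j)) + 2) % 4782969) =
      mlt (V.get ((4 * a + 2) % 19683)) *
        fld (V.get ((4 * a + 2) % 19683)) ((4 * u + (4 * a + 2) / 19683 + 81 * j) % 243) :=
    val_eq _ _ _ _ _ (arX a u j).1 (arX a u j).2
  have hr : a % 3 = 0 ∨ a % 3 = 1 ∨ a % 3 = 2 := by omega
  have eD : (a + 19683 * (u + 81 * j)) / 3 = a / 3 + 6561 * (u + 81 * j) := by omega
  rw [eV, eM, eX, eD]
  rcases hr with hr | hr | hr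
  · have hr' : Nat.mod a 3 = 0 := hr
    rw [hr'] at h
    obtain ⟨h1, h2⟩ := blk_spec h
    obtain ⟨h3, h4, h5⟩ := h2 u hu j hj
    have e3 : (a + 19683 * (u + 81 * j)) % 3 = 0 := by omega
    have eY : val L 6561 ((4 * (a / 3 + 6561 * (u + 81 * j))) % 1594323) =
        mlt (L.get ((4 * (a / 3)) % 6561)) *
          fld (L.get ((4 * (a / 3)) % 6561)) ((4 * u + (4 * (a / 3)) / 6561 + 81 * j) % 243) :=
      val_eq _ _ _ _ _ (arY _ u j).1 (arY _ u j).2
    rw [term, if_pos e3, eY]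
    refine ⟨Nat.mul_pos h1 h3, h4, ?_⟩
    rw [← Nat.mul_assoc, ← Nat.mul_assoc, ← Nat.mul_assoc]
    exact h5
  · have hr' : Nat.mod a 3 = 1 := hr
    rw [hr'] at h
    obtain ⟨h1, h2⟩ := blk_spec (BY := 0) h
    obtain ⟨h3, h4, h5⟩ := h2 u hu j hj
    have e3 : (a + 19683 * (u + 81 * j)) % 3 = 1 := by omega
    rw [term, if_neg (by omega), if_pos e3]
    refine ⟨Nat.mul_pos h1 h3, h4, ?_⟩
    rw [Nat.zero_mul, Nat.zero_mul] at h5
    rw [← Nat.mul_assoc, ← Nat.mul_assoc]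
    exact h5
  · have hr' : Nat.mod a 3 = 2 := hr
    rw [hr'] at h
    obtain ⟨h1, h2⟩ := blk_spec h
    obtain ⟨h3, h4, h5⟩ := h2 u hu j hj
    have e3 : (a + 19683 * (u + 81 * j)) % 3 = 2 := by omega
    have eY : val L 6561 ((2 * (a / 3 + 6561 * (u + 81 * j)) + 1) % 1594323) =
        mlt (L.get ((2 * (a / 3) + 1) % 6561)) *
          fld (L.get ((2 * (a / 3) + 1) % 6561))
            ((2 * u + (2 * (a / 3) + 1) / 6561 + 162 * j) % 243) :=
      val_eq _ _ _ _ _ (arZ _ u j).1 (arZ _ u j).2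
    rw [term, if_neg (by omega), if_neg (by omega), eY]
    refine ⟨Nat.mul_pos h1 h3, h4, ?_⟩
    rw [← Nat.mul_assoc, ← Nat.mul_assoc, ← Nat.mul_assoc]
    exact h5

end Pool.Agent.K6.H13.KL
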