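import Pool.Agent.K6.H13.KL.Classes
import Pool.Agent.K6.H13.KL.Spec

set_option autoImplicit false

namespace Pool.Agent.K6.H13.KL

open Filter Pool.Agent.Helper894.Three

theorem root_le {x y : ℝ} {p q : ℕ} (hq : q ≠ 0) (hx : 0 ≤ x) (hy : 0 < y)
    (h : x ^ q * y ^ p ≤ 1) : x * y ^ ((p : ℝ) / q) ≤ 1 := by
  have h1 : (x * y ^ ((p : ℝ) / q)) ^ q ≤ 1 := by
    rw [mul_pow, ← Real.rpow_natCast (y ^ ((p : ℝ) / q)) q, ← Real.rpow_mul hy.le,
      div_mul_cancel₀ _ (by exact_mod_cast hq), Real.rpow_natCast]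
    exact h
  exact (pow_le_one_iff_of_nonneg (by positivity) hq).1 h1

theorem scale {x y κ c s : ℝ} (hx : 0 < x) (hy : 0 < y) (hκ : 0 < κ) (hs : 0 ≤ s)
    (hyx : y ≤ κ * x) (hc : c * κ ^ s ≤ 1) : c * x ^ (-s) ≤ y ^ (-s) := by
  have h1 : (κ * x) ^ (-s) ≤ y ^ (-s) :=
    Real.rpow_le_rpow_of_nonpos hy hyx (by linarith)
  refine le_trans ?_ h1
  rw [Real.mul_rpow hκ.le hx.le]
  apply mul_le_mul_of_nonneg_right _ (by positivity)
  rw [Real.rpow_neg hκ.le, ← one_div, le_div_iff₀ (by positivity)]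
  exact hc

/-- residue of an integer as a natural number -/
def idx (N : ℕ) (t : ℤ) : ℕ := (t % (N : ℤ)).toNat

theorem idx_cast {N : ℕ} (hN : 0 < N) (t : ℤ) : (idx N t : ℤ) = t % (N : ℤ) := by
  unfold idx
  exact Int.toNat_of_nonneg (Int.emod_nonneg _ (by omega))

theorem idx_lt {N : ℕ} (hN : 0 < N) (t : ℤ) : idx N t < N := by
  have h1 := idx_cast hN t
  have h2 := Int.emod_lt_of_pos t (show (0 : ℤ) < N by omega)
  omega

/-- the certified data -/
structure Cert (v L : ℕ → ℕ) : Prop where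
  pos : ∀ t < 4782969, 1 ≤ v t
  bound : ∀ t, v t ≤ 65535 * 8191
  lift : ∀ t < 4782969, L (t % 1594323) ≤ v t
  ineq : ∀ t < 4782969, 1000050 * v t ≤ 295070 * v ((4 * t + 2) % 4782969) +
    term L 1429014 776246 (t / 3) (t % 3)

noncomputable def S : ℝ := (81 : ℕ) / (92 : ℕ)

theorem S_pos : 0 < S := by unfold S; norm_num

/-- the weight function -/
noncomputable def wf (v : ℕ → ℕ) (n : ℤ) : ℝ :=
  (v (idx 4782969 ((n - 2) / 3)) : ℝ) * |(n : ℝ)| ^ (-S)

theorem wf_val (v : ℕ → ℕ) (t : ℤ) :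
    wf v (3 * t + 2) = (v (idx 4782969 t) : ℝ) * |((3 * t + 2 : ℤ) : ℝ)| ^ (-S) := by
  unfold wf
  rw [show (3 * t + 2 - 2) / 3 = t by omega]

theorem c_a : (0.295070 : ℝ) * 4 ^ S ≤ 1 := by
  unfold S
  apply root_le (by norm_num) (by norm_num) (by norm_num)
  norm_num

theorem c_b (e : ℕ) (b : ℝ) (hb : b = 1.429014 ∧ e = 0 ∨ b = 0.776246 ∧ e = 1) :
    b * (2 ^ e * (2 / 3) * (1 + 1 / 2000000)) ^ S ≤ 1 := by
  unfold S
  rcases hb with ⟨rfl, rfl⟩ | ⟨rfl, rfl⟩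
  all_goals
    apply root_le (by norm_num) (by norm_num) (by norm_num)
    norm_num

theorem second_child {v L : ℕ → ℕ} (hc : Cert v L) (t : ℤ) (hA : 1000000 ≤ |3 * t + 2|)
    (e : ℕ) (b : ℕ) (hb : (b : ℝ) / 1000000 * (2 ^ e * (2 / 3) * (1 + 1 / 2000000)) ^ S ≤ 1)
    (t2 : ℤ) (ht2 : 2 ^ e * (2 * t + 1) = 3 * t2 + 2) (q : ℕ)
    (hq : (idx 4782969 t2) % 1594323 = q)
    (hterm : 1000050 * v (idx 4782969 t) ≤ 295070 * v (idx 4782969 (4 * t + 2)) + b * L q) :
    1.00005 * wf v (3 * t + 2) ≤ wf v (4 * (3 * t + 2)) + wf v (2 ^ e * (2 * t + 1)) := by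
  have hn0 : (0 : ℝ) < |((3 * t + 2 : ℤ) : ℝ)| := by
    rw [← Int.cast_abs]
    exact_mod_cast (by omega : (0 : ℤ) < |3 * t + 2|)
  have hL : L q ≤ v (idx 4782969 t2) := by
    rw [← hq]
    exact hc.lift _ (idx_lt (by norm_num) _)
  have h1 : (1000050 : ℝ) * v (idx 4782969 t) ≤ 295070 * v (idx 4782969 (4 * t + 2)) +
      b * v (idx 4782969 t2) := by
    have : 1000050 * v (idx 4782969 t) ≤ 295070 * v (idx 4782969 (4 * t + 2)) +
        b * v (idx 4782969 t2) := hterm.trans (by gcongr)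
    exact_mod_cast this
  rw [show (4 : ℤ) * (3 * t + 2) = 3 * (4 * t + 2) + 2 by ring, ht2, wf_val, wf_val, wf_val]
  have hc1 : (0.295070 : ℝ) * |((3 * t + 2 : ℤ) : ℝ)| ^ (-S) ≤
      |((3 * (4 * t + 2) + 2 : ℤ) : ℝ)| ^ (-S) := by
    apply scale hn0 _ (by norm_num : (0 : ℝ) < 4) S_pos.le _ c_a
    · rw [show ((3 * (4 * t + 2) + 2 : ℤ) : ℝ) = 4 * ((3 * t + 2 : ℤ) : ℝ) by push_cast; ring,
        abs_mul]
      positivity
    · rw [show ((3 * (4 * t + 2) + 2 : ℤ) : ℝ) = 4 * ((3 * t + 2 : ℤ) : ℝ) by push_cast; ring,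
        abs_mul, abs_of_pos (by norm_num : (0 : ℝ) < 4)]
  have hc2 : (b : ℝ) / 1000000 * |((3 * t + 2 : ℤ) : ℝ)| ^ (-S) ≤
      |((3 * t2 + 2 : ℤ) : ℝ)| ^ (-S) := by
    apply scale hn0 _ (by positivity) S_pos.le _ hb
    · rw [← Int.cast_abs]
      have : 3 * t2 + 2 ≠ 0 := by omega
      exact_mod_cast abs_pos.2 this
    · rw [← ht2, ← Int.cast_abs, ← Int.cast_abs, abs_mul,
        abs_of_pos (by positivity : (0 : ℤ) < 2 ^ e)]
      have h3 : 3 * |2 * t + 1| ≤ 2 * |3 * t + 2| + 1 := by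
        have h4 : |3 * (2 * t + 1)| = |2 * (3 * t + 2) - 1| := by congr 1; ring
        have h5 : |3 * (2 * t + 1)| = 3 * |2 * t + 1| := by rw [abs_mul]; rfl
        have h6 : |2 * (3 * t + 2)| = 2 * |3 * t + 2| := by rw [abs_mul]; rfl
        have h7 : |2 * (3 * t + 2) - 1| ≤ |2 * (3 * t + 2)| + |(1 : ℤ)| := abs_sub _ _
        rw [abs_one] at h7
        omega
      have h3' : (3 : ℝ) * |2 * t + 1| ≤ 2 * |3 * t + 2| + 1 := by exact_mod_cast h3
      have hA' : (1000000 : ℝ) ≤ |3 * t + 2| := by exact_mod_cast hA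
      have h8 : ((|2 * t + 1| : ℤ) : ℝ) ≤ (2 / 3) * (1 + 1 / 2000000) * (|3 * t + 2| : ℤ) := by
        push_cast at h3' hA' ⊢
        linarith
      have h9 : (0 : ℝ) ≤ 2 ^ e := by positivity
      push_cast at h8 ⊢
      calc (2 : ℝ) ^ e * |2 * (t : ℝ) + 1| ≤
          2 ^ e * ((2 / 3) * (1 + 1 / 2000000) * |3 * (t : ℝ) + 2|) :=
            mul_le_mul_of_nonneg_left h8 h9
        _ = _ := by ring
  have hx : (0 : ℝ) ≤ |((3 * t + 2 : ℤ) : ℝ)| ^ (-S) := by positivity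
  have h10 := mul_le_mul_of_nonneg_right h1 hx
  have h11 := mul_le_mul_of_nonneg_left hc1
    (Nat.cast_nonneg (α := ℝ) (v (idx 4782969 (4 * t + 2))))
  have h12 := mul_le_mul_of_nonneg_left hc2 (Nat.cast_nonneg (α := ℝ) (v (idx 4782969 t2)))
  nlinarith

theorem hsub {v L : ℕ → ℕ} (hc : Cert v L) (t : ℤ) (hA : 1000000 ≤ |3 * t + 2|) :
    1.00005 * wf v (3 * t + 2) ≤ wf v (4 * (3 * t + 2)) ∨
      ∃ e : ℕ, e ≤ 1 ∧ (2 ^ e * (2 * t + 1)) % 3 = 2 ∧
        1.00005 * wf v (3 * t + 2) ≤ wf v (4 * (3 * t + 2)) + wf v (2 ^ e * (2 * t + 1)) := by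
  obtain ⟨t0, ht0⟩ : ∃ t0, t0 = idx 4782969 t := ⟨_, rfl⟩
  have h0 : (t0 : ℤ) = t % 4782969 := by rw [ht0]; exact idx_cast (by norm_num) t
  have hlt : t0 < 4782969 := by rw [ht0]; exact idx_lt (by norm_num) t
  have hi := hc.ineq t0 hlt
  have e1 : (4 * t0 + 2) % 4782969 = idx 4782969 (4 * t + 2) := by
    have h := idx_cast (N := 4782969) (by norm_num) (4 * t + 2)
    push_cast at h
    omega
  rw [e1] at hi
  have hr : t0 % 3 = 0 ∨ t0 % 3 = 1 ∨ t0 % 3 = 2 := by omega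
  rcases hr with hr | hr | hr
  · right
    obtain ⟨u, hu⟩ : ∃ u, t = 3 * u := ⟨t / 3, by omega⟩
    refine ⟨1, le_rfl, by omega, ?_⟩
    rw [hr, term, if_pos rfl] at hi
    have e2 : idx 4782969 (4 * u) % 1594323 = (4 * (t0 / 3)) % 1594323 := by
      have h := idx_cast (N := 4782969) (by norm_num) (4 * u)
      push_cast at h
      omega
    apply second_child hc t hA 1 776246 _ (4 * u) (by rw [hu]; ring) _ e2
    · rw [← ht0]; exact hi
    · have := c_b 1 0.776246 (by norm_num)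
      norm_num at this ⊢
      exact this
  · left
    rw [hr, term, if_neg (by norm_num), if_pos rfl] at hi
    have hi' : 1000050 * v t0 ≤ 295070 * v (idx 4782969 (4 * t + 2)) := hi
    have hn0 : (0 : ℝ) < |((3 * t + 2 : ℤ) : ℝ)| := by
      rw [← Int.cast_abs]
      exact_mod_cast (by omega : (0 : ℤ) < |3 * t + 2|)
    rw [show (4 : ℤ) * (3 * t + 2) = 3 * (4 * t + 2) + 2 by ring, wf_val, wf_val, ← ht0]
    have hc1 : (0.295070 : ℝ) * |((3 * t + 2 : ℤ) : ℝ)| ^ (-S) ≤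
        |((3 * (4 * t + 2) + 2 : ℤ) : ℝ)| ^ (-S) := by
      apply scale hn0 _ (by norm_num : (0 : ℝ) < 4) S_pos.le _ c_a
      · rw [show ((3 * (4 * t + 2) + 2 : ℤ) : ℝ) = 4 * ((3 * t + 2 : ℤ) : ℝ) by
          push_cast; ring, abs_mul]
        positivity
      · rw [show ((3 * (4 * t + 2) + 2 : ℤ) : ℝ) = 4 * ((3 * t + 2 : ℤ) : ℝ) by
          push_cast; ring, abs_mul, abs_of_pos (by norm_num : (0 : ℝ) < 4)]
    have h1 : (1000050 : ℝ) * v t0 ≤ 295070 * v (idx 4782969 (4 * t + 2)) := by exact_mod_cast hi'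
    have hx : (0 : ℝ) ≤ |((3 * t + 2 : ℤ) : ℝ)| ^ (-S) := by positivity
    have h10 := mul_le_mul_of_nonneg_right h1 hx
    have h11 := mul_le_mul_of_nonneg_left hc1
      (Nat.cast_nonneg (α := ℝ) (v (idx 4782969 (4 * t + 2))))
    nlinarith
  · right
    obtain ⟨u, hu⟩ : ∃ u, t = 3 * u + 2 := ⟨t / 3, by omega⟩
    refine ⟨0, by norm_num, by omega, ?_⟩
    rw [hr, term, if_neg (by norm_num), if_neg (by norm_num)] at hi
    have e2 : idx 4782969 (2 * u + 1) % 1594323 = (2 * (t0 / 3) + 1) % 1594323 := by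
      have h := idx_cast (N := 4782969) (by norm_num) (2 * u + 1)
      push_cast at h
      omega
    apply second_child hc t hA 0 1429014 _ (2 * u + 1) (by rw [hu]; ring) _ e2
    · rw [← ht0]; exact hi
    · have := c_b 0 1.429014 (by norm_num)
      norm_num at this ⊢
      exact this

/-- integers in `W` of absolute value at most `Y` which reach `n` in at most `M` steps -/
def DT (W : Set ℤ) (n : ℤ) (Y : ℝ) (M : ℕ) : Set ℤ :=
  {x | (∃ k ≤ M, T^[k] x = n) ∧ x ∈ W ∧ |(x : ℝ)| ≤ Y}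

theorem DT_finite (W : Set ℤ) (n : ℤ) (Y : ℝ) (M : ℕ) : (DT W n Y M).Finite :=
  (DX_finite n Y).subset fun _ hx => ⟨⟨hx.1.choose, hx.1.choose_spec.2⟩, hx.2.2⟩

theorem DT_desc {W : Set ℤ} {n : ℤ} {Y : ℝ} {M : ℕ} {x : ℤ} (h : x ∈ DT W n Y M) : x ∈ Desc n :=
  ⟨h.1.choose, h.1.choose_spec.2⟩

theorem DT_sub {W : Set ℤ} {n m : ℤ} (Y : ℝ) {M M' l : ℕ} (h : T^[l] m = n) (hM : l + M ≤ M') :
    DT W m Y M ⊆ DT W n Y M' := by
  rintro x ⟨⟨k, hk, hx⟩, h2⟩
  exact ⟨⟨l + k, by omega, by rw [Function.iterate_add_apply, hx, h]⟩, h2⟩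

/-- The mass argument for the integers in `W` which reach `n` fast: a function `f` which is at most
`q` times the sum of its values on the children is bounded by the number of these integers, up to a
small error. -/
theorem massT (W : Set ℤ) (f : ℤ → ℝ) (X K Y Bd q : ℝ) (A0 : ℤ) (M : ℕ) (hK : 0 ≤ K)
    (hq : 0 ≤ q) (hq1 : q ≤ 1)
    (hbig : ∀ n : ℤ, X < |(n : ℝ)| → f n ≤ K) (hbd : ∀ n : ℤ, A0 ≤ |n| → f n ≤ Bd)
    (hBd : 0 ≤ Bd)
    (hW : ∀ n : ℤ, n % 3 = 2 → |(n : ℝ)| ≤ 4 * X → (DT W n Y M).Nonempty)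
    (hsub : ∀ t : ℤ, A0 ≤ |3 * t + 2| → f (3 * t + 2) ≤ q * f (4 * (3 * t + 2)) ∨
      ∃ e : ℕ, e ≤ 1 ∧ (2 ^ e * (2 * t + 1)) % 3 = 2 ∧
        f (3 * t + 2) ≤ q * (f (4 * (3 * t + 2)) + f (2 ^ e * (2 * t + 1))))
    (l : ℕ) :
    ∀ n : ℤ, n % 3 = 2 → NP n → (∀ x ∈ Desc n, A0 ≤ |x|) → |(n : ℝ)| ≤ 4 * X →
      f n ≤ K * (DT W n Y (2 * l + M)).ncard + q ^ l * (Bd * (DX n (4 * X)).ncard) := by
  have hXpos : ∀ n : ℤ, |(n : ℝ)| ≤ 4 * X → (1 : ℝ) ≤ (DX n (4 * X)).ncard := by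
    intro n hn
    have h1 := card_lt (S := ∅) hn (Set.empty_subset _) (by simp)
    exact_mod_cast (by omega : 1 ≤ (DX n (4 * X)).ncard)
  induction l with
  | zero =>
    intro n _ _ hsmall hn
    have h1 := hbd n (hsmall n (desc_self n))
    have h2 := hXpos n hn
    have h3 : 0 ≤ K * ((DT W n Y (2 * 0 + M)).ncard : ℝ) := by positivity
    rw [pow_zero, one_mul]
    nlinarith
  | succ l ih =>
    intro n hn5 hnp hsmall hn
    have hql : 0 ≤ q ^ (l + 1) := by positivity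
    rcases lt_or_ge X |(n : ℝ)| with hX1 | hX1
    · have hpos : 1 ≤ (DT W n Y (2 * (l + 1) + M)).ncard := by
        have h1 : (DT W n Y (2 * (l + 1) + M)).Nonempty :=
          (hW n hn5 hn).mono (DT_sub (l := 0) Y rfl (by omega))
        have := (Set.ncard_pos (DT_finite W n Y _)).2 h1
        omega
      have hposR : (1 : ℝ) ≤ ((DT W n Y (2 * (l + 1) + M)).ncard : ℝ) := by exact_mod_cast hpos
      have h2 : 0 ≤ q ^ (l + 1) * (Bd * ((DX n (4 * X)).ncard : ℝ)) := by positivity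
      have h3 := hbig n hX1
      nlinarith
    · obtain ⟨t, rfl⟩ : ∃ t, n = 3 * t + 2 := ⟨n / 3, by omega⟩
      have hsm := hsmall _ (desc_self _)
      have hc1 := ih (4 * (3 * t + 2)) (by omega) (hnp.of_iterate (iter_c1 _))
          (fun x hx => hsmall x (desc_c1 _ hx)) (by
        have : ((4 * (3 * t + 2) : ℤ) : ℝ) = 4 * ((3 * t + 2 : ℤ) : ℝ) := by push_cast; ring
        rw [this, abs_mul, abs_of_pos (by norm_num : (0 : ℝ) < 4)]
        linarith)
      have hs1 : DT W (4 * (3 * t + 2)) Y (2 * l + M) ⊆ DT W (3 * t + 2) Y (2 * (l + 1) + M) :=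
        DT_sub Y (iter_c1 _) (by omega)
      have hd1 : DX (4 * (3 * t + 2)) (4 * X) ⊆ DX (3 * t + 2) (4 * X) :=
        fun x hx => ⟨desc_c1 _ hx.1, hx.2⟩
      rcases hsub t hsm with h1 | ⟨e, he, he5, h1⟩
      · have hle : ((DT W (4 * (3 * t + 2)) Y (2 * l + M)).ncard : ℝ) ≤
            (DT W (3 * t + 2) Y (2 * (l + 1) + M)).ncard := by
          exact_mod_cast Set.ncard_le_ncard hs1 (DT_finite _ _ _ _)
        have hle2 : ((DX (4 * (3 * t + 2)) (4 * X)).ncard : ℝ) ≤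
            (DX (3 * t + 2) (4 * X)).ncard := by
          exact_mod_cast Set.ncard_le_ncard hd1 (DX_finite _ _)
        calc f (3 * t + 2) ≤ q * f (4 * (3 * t + 2)) := h1
          _ ≤ q * (K * (DT W (4 * (3 * t + 2)) Y (2 * l + M)).ncard +
              q ^ l * (Bd * (DX (4 * (3 * t + 2)) (4 * X)).ncard)) :=
            mul_le_mul_of_nonneg_left hc1 hq
          _ ≤ q * (K * (DT W (3 * t + 2) Y (2 * (l + 1) + M)).ncard +
              q ^ l * (Bd * (DX (3 * t + 2) (4 * X)).ncard)) := by gcongr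
          _ = q * (K * (DT W (3 * t + 2) Y (2 * (l + 1) + M)).ncard) +
              q ^ (l + 1) * (Bd * (DX (3 * t + 2) (4 * X)).ncard) := by ring
          _ ≤ _ := by
            have h5 : 0 ≤ K * ((DT W (3 * t + 2) Y (2 * (l + 1) + M)).ncard : ℝ) := by positivity
            nlinarith
      · have hc2 := ih (2 ^ e * (2 * t + 1)) he5 (hnp.of_iterate (iter_c2 t e))
            (fun x hx => hsmall x (desc_c2 _ _ hx)) (by
          have h8 : (2 : ℤ) ^ e ≤ 2 := by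
            calc (2 : ℤ) ^ e ≤ 2 ^ 1 := pow_le_pow_right₀ (by norm_num) he
              _ = 2 := by norm_num
          have h9 : |2 ^ e * (2 * t + 1)| ≤ 4 * |3 * t + 2| := by
            rw [abs_mul, abs_of_pos (by positivity : (0 : ℤ) < 2 ^ e)]
            have h10 : |2 * t + 1| ≤ 2 * |3 * t + 2| := by
              rw [abs_le]
              have h11 := le_abs_self (3 * t + 2)
              have h12 := neg_abs_le (3 * t + 2)
              constructor <;> omega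
            calc 2 ^ e * |2 * t + 1| ≤ 2 * (2 * |3 * t + 2|) :=
                  mul_le_mul h8 h10 (abs_nonneg _) (by norm_num)
              _ = 4 * |3 * t + 2| := by ring
          have h13 : |((2 ^ e * (2 * t + 1) : ℤ) : ℝ)| ≤ 4 * |((3 * t + 2 : ℤ) : ℝ)| := by
            rw [← Int.cast_abs, ← Int.cast_abs]
            exact_mod_cast h9
          linarith)
        have hs2 : DT W (2 ^ e * (2 * t + 1)) Y (2 * l + M) ⊆
            DT W (3 * t + 2) Y (2 * (l + 1) + M) := DT_sub Y (iter_c2 t e) (by omega)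
        have hd2 : DX (2 ^ e * (2 * t + 1)) (4 * X) ⊆ DX (3 * t + 2) (4 * X) :=
          fun x hx => ⟨desc_c2 _ _ hx.1, hx.2⟩
        have hdis := disj hnp e
        rw [Set.disjoint_left] at hdis
        have hle : ((DT W (4 * (3 * t + 2)) Y (2 * l + M)).ncard : ℝ) +
            (DT W (2 ^ e * (2 * t + 1)) Y (2 * l + M)).ncard ≤
              (DT W (3 * t + 2) Y (2 * (l + 1) + M)).ncard := by
          have h2 : (DT W (4 * (3 * t + 2)) Y (2 * l + M)).ncard +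
            (DT W (2 ^ e * (2 * t + 1)) Y (2 * l + M)).ncard ≤
              (DT W (3 * t + 2) Y (2 * (l + 1) + M)).ncard := by
            rw [← Set.ncard_union_eq _ (DT_finite _ _ _ _) (DT_finite _ _ _ _)]
            · exact Set.ncard_le_ncard (Set.union_subset hs1 hs2) (DT_finite _ _ _ _)
            · rw [Set.disjoint_left]
              intro x h3 h4
              exact hdis (DT_desc h3) (DT_desc h4)
          exact_mod_cast h2
        have hle2 : ((DX (4 * (3 * t + 2)) (4 * X)).ncard : ℝ) +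
            (DX (2 ^ e * (2 * t + 1)) (4 * X)).ncard ≤ (DX (3 * t + 2) (4 * X)).ncard := by
          have h2 : (DX (4 * (3 * t + 2)) (4 * X)).ncard +
            (DX (2 ^ e * (2 * t + 1)) (4 * X)).ncard ≤ (DX (3 * t + 2) (4 * X)).ncard := by
            rw [← Set.ncard_union_eq _ (DX_finite _ _) (DX_finite _ _)]
            · exact Set.ncard_le_ncard (Set.union_subset hd1 hd2) (DX_finite _ _)
            · rw [Set.disjoint_left]
              intro x h3 h4
              exact hdis h3.1 h4.1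
          exact_mod_cast h2
        calc f (3 * t + 2) ≤ q * (f (4 * (3 * t + 2)) + f (2 ^ e * (2 * t + 1))) := h1
          _ ≤ q * ((K * (DT W (4 * (3 * t + 2)) Y (2 * l + M)).ncard +
              q ^ l * (Bd * (DX (4 * (3 * t + 2)) (4 * X)).ncard)) +
              (K * (DT W (2 ^ e * (2 * t + 1)) Y (2 * l + M)).ncard +
              q ^ l * (Bd * (DX (2 ^ e * (2 * t + 1)) (4 * X)).ncard))) :=
            mul_le_mul_of_nonneg_left (add_le_add hc1 hc2) hq
          _ = q * (K * (((DT W (4 * (3 * t + 2)) Y (2 * l + M)).ncard : ℝ) +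
              (DT W (2 ^ e * (2 * t + 1)) Y (2 * l + M)).ncard)) +
              q ^ (l + 1) * (Bd * (((DX (4 * (3 * t + 2)) (4 * X)).ncard : ℝ) +
              (DX (2 ^ e * (2 * t + 1)) (4 * X)).ncard)) := by ring
          _ ≤ q * (K * (DT W (3 * t + 2) Y (2 * (l + 1) + M)).ncard) +
              q ^ (l + 1) * (Bd * (DX (3 * t + 2) (4 * X)).ncard) := by gcongr
          _ ≤ _ := by
            have h5 : 0 ≤ K * ((DT W (3 * t + 2) Y (2 * (l + 1) + M)).ncard : ℝ) := by positivity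
            nlinarith

end Pool.Agent.K6.H13.KL
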