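import Pool.Agent.K6.H13.KL.Classes
import Pool.Agent.W36.PDV

set_option autoImplicit false

namespace Pool.Agent.K6.H13.KL

open Pool.Agent.Helper894.Three

theorem TK_eq : Pool.Agent.H366R2.KGen.TK 1 = T := rfl

theorem T_pos {n : ℤ} (h : 0 < n) : 0 < T n := by
  unfold T; split_ifs <;> omega

theorem T_neg {n : ℤ} (h : n < 0) : T n < 0 := by
  unfold T; split_ifs <;> omega

theorem iter_pos (k : ℕ) : ∀ n : ℤ, 0 < n → 0 < T^[k] n := by
  induction k with
  | zero => intro n h; exact h
  | succ k ih => intro n h; rw [Function.iterate_succ_apply]; exact ih _ (T_pos h)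

theorem iter_neg (k : ℕ) : ∀ n : ℤ, n < 0 → T^[k] n < 0 := by
  induction k with
  | zero => intro n h; exact h
  | succ k ih => intro n h; rw [Function.iterate_succ_apply]; exact ih _ (T_neg h)

theorem iter_zero (k : ℕ) : T^[k] (0 : ℤ) = 0 := by
  induction k with
  | zero => rfl
  | succ k ih => rw [Function.iterate_succ_apply]; exact ih

theorem iter_sign {k : ℕ} {n a : ℤ} (h : T^[k] n = a) (ha : a ≠ 0) : 0 < n * a := by
  rcases lt_trichotomy n 0 with h1 | h1 | h1
  · have := iter_neg k n h1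
    rw [h] at this
    exact mul_pos_of_neg_of_neg h1 this
  · subst h1
    rw [iter_zero] at h
    exact absurd h.symm ha
  · have := iter_pos k n h1
    rw [h] at this
    exact mul_pos h1 this

/-- the exponent of `2` in `z` and the odd part -/
theorem exists_odd {z : ℤ} (hz : z ≠ 0) : ∃ (i : ℕ) (w : ℤ), z = 2 ^ i * (2 * w + 1) := by
  obtain ⟨n, hn⟩ : ∃ n : ℕ, n = z.natAbs := ⟨_, rfl⟩
  induction n using Nat.strong_induction_on generalizing z with
  | _ n ih =>
    rcases Int.emod_two_eq_zero_or_one z with h | h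
    · have h2 : z / 2 ≠ 0 := by omega
      obtain ⟨i, w, hw⟩ := ih (z / 2).natAbs (by omega) h2 rfl
      refine ⟨i + 1, w, ?_⟩
      have : z = 2 * (z / 2) := by omega
      rw [this, hw]
      ring
    · exact ⟨0, z / 2, by rw [pow_zero, one_mul]; omega⟩

/-- a node above `a` of size at least `X / 2` gives one which is not divisible by `3` -/
theorem step_away {a z : ℤ} (ha : ¬ (3 : ℤ) ∣ a) {j : ℕ} (h : T^[j] z = a) {i : ℕ} {w : ℤ}
    (hz : z = 2 ^ i * (2 * w + 1)) (h3 : (3 : ℤ) ∣ z) :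
    ∃ j' ≤ j, T^[j'] (3 * w + 2) = a := by
  have h3w : (3 : ℤ) ∣ 2 * w + 1 := by
    rw [hz] at h3
    have h5 : IsCoprime (3 : ℤ) (2 ^ i) := by
      apply IsCoprime.pow_right
      rw [Int.isCoprime_iff_gcd_eq_one]
      rfl
    exact h5.dvd_of_dvd_mul_left h3
  have hji : i + 1 ≤ j := by
    by_contra hcon
    have hj : j ≤ i := by omega
    have e : (2 : ℤ) ^ i = 2 ^ j * 2 ^ (i - j) := by rw [← pow_add]; congr 1; omega
    rw [hz, e, mul_assoc, T_pow] at h
    apply ha
    rw [← h]
    exact Dvd.dvd.mul_left h3w _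
  obtain ⟨l, rfl⟩ : ∃ l, j = l + (i + 1) := ⟨j - (i + 1), by omega⟩
  refine ⟨l, by omega, ?_⟩
  rw [Function.iterate_add_apply, hz, Function.iterate_succ_apply', T_pow, T_odd] at h
  exact h

theorem window_inj {X : ℝ} {i i' : ℕ} {w : ℤ} (h1 : X / 2 < |((2 ^ i * (2 * w + 1) : ℤ) : ℝ)|)
    (h2 : |((2 ^ i' * (2 * w + 1) : ℤ) : ℝ)| ≤ X) (hii : i < i') : False := by
  obtain ⟨d, rfl⟩ : ∃ d, i' = i + 1 + d := ⟨i' - (i + 1), by omega⟩
  have e : |((2 ^ (i + 1 + d) * (2 * w + 1) : ℤ) : ℝ)| =
      2 * 2 ^ d * |((2 ^ i * (2 * w + 1) : ℤ) : ℝ)| := by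
    push_cast
    rw [abs_mul, abs_mul, pow_add, pow_add, pow_one, abs_mul, abs_mul,
      abs_of_pos (by positivity : (0 : ℝ) < 2 ^ d)]
    norm_num
    ring
  rw [e] at h2
  have h3 : (1 : ℝ) ≤ 2 ^ d := one_le_pow₀ (by norm_num)
  nlinarith [abs_nonneg ((2 ^ i * (2 * w + 1) : ℤ) : ℝ)]

/-- all residue classes at once -/
theorem all_classes' {m : ℕ} (hm : 0 < m) :
    ∃ (C : ℤ) (M : ℕ), 0 < C ∧ ∀ (r y : ℤ), ¬ (3 : ℤ) ∣ y → ∃ x : ℤ, (∃ k ≤ M, T^[k] x = y) ∧
      (m : ℤ) ∣ x - r ∧ |x| ≤ C * |y| := by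
  choose C M hC h using fun r : ℕ => all_classes hm (r : ℤ)
  refine ⟨1 + ∑ r ∈ Finset.range m, C r, ∑ r ∈ Finset.range m, M r, ?_, ?_⟩
  · have : 0 ≤ ∑ r ∈ Finset.range m, C r := Finset.sum_nonneg fun r _ => (hC r).le
    omega
  · intro r y hy
    have hm' : (0 : ℤ) < m := by exact_mod_cast hm
    have hr0 : 0 ≤ r % m := Int.emod_nonneg _ hm'.ne'
    have hr1 : r % m < m := Int.emod_lt_of_pos _ hm'
    obtain ⟨s, hs⟩ : ∃ s : ℕ, (s : ℤ) = r % m := ⟨(r % m).toNat, Int.toNat_of_nonneg hr0⟩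
    have hsm : s ∈ Finset.range m := by
      rw [Finset.mem_range]
      have : (s : ℤ) < m := by rw [hs]; exact hr1
      exact_mod_cast this
    obtain ⟨x, ⟨k, hk, hx⟩, hxr, hxC⟩ := h s y hy
    refine ⟨x, ⟨k, hk.trans ?_, hx⟩, ?_, hxC.trans ?_⟩
    · exact Finset.single_le_sum (f := M) (fun i _ => Nat.zero_le _) hsm
    · have e : x - r = (x - s) - m * (r / m) := by
        have := Int.emod_add_mul_ediv r m
        rw [hs]
        linarith
      rw [e]
      exact dvd_sub hxr (Dvd.intro _ rfl)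
    · have h1 : C s ≤ ∑ r ∈ Finset.range m, C r :=
        Finset.single_le_sum (f := C) (fun i _ => (hC i).le) hsm
      have h2 := abs_nonneg y
      nlinarith

/-- Uniform positive predecessor density in all residue classes, for the accelerated map. -/
theorem pred_classes {m : ℕ} (hm : 0 < m) : ∃ c K : ℝ, 0 < c ∧ 1 ≤ K ∧ ∀ a r : ℤ, ¬ (3 : ℤ) ∣ a →
    ∀ x : ℝ, K * |(a : ℝ)| ≤ x → ∃ S : Finset ℤ,
      (∀ n ∈ S, |(n : ℝ)| ≤ x ∧ 0 < n * a ∧ (m : ℤ) ∣ n - r ∧
        ∃ k : ℕ, (k : ℝ) ≤ K * (1 + Real.log (x / |(a : ℝ)|)) ∧ T^[k] n = a) ∧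
      c * x / |(a : ℝ)| ≤ S.card := by
  classical
  obtain ⟨c, C, hc, hC, hmain⟩ := Pool.Agent.W36.PDU.mainKall
  obtain ⟨B, M, hB, hcl⟩ := all_classes' hm
  have hBR : (1 : ℝ) ≤ B := by exact_mod_cast hB
  refine ⟨c / (2 * B) / (2 * (M + 1)), 2 * B + C + M, by positivity, by
    have : (0 : ℝ) ≤ M := by positivity
    linarith, ?_⟩
  intro a r ha x hx
  have ha0 : a ≠ 0 := by rintro rfl; exact ha (dvd_zero _)
  have ha1 : (1 : ℝ) ≤ |(a : ℝ)| := by exact_mod_cast Int.one_le_abs ha0
  have hM0 : (0 : ℝ) ≤ M := by positivity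
  set X : ℝ := x / (2 * B) with hX
  have hx0 : 0 < x := by
    have : 0 < (2 * (B : ℝ) + C + M) * |(a : ℝ)| := by positivity
    linarith
  have hXa : |(a : ℝ)| ≤ X := by
    rw [hX, le_div_iff₀ (by positivity)]
    refine le_trans ?_ hx
    have : 0 ≤ (C + M) * |(a : ℝ)| := by positivity
    linarith
  have hXx : X ≤ x := by
    rw [hX, div_le_iff₀ (by positivity)]
    nlinarith
  obtain ⟨S, hS, hcard⟩ := hmain 1 a (by norm_num) (by norm_num) ha X hXa (by
    push_cast; rw [abs_one]; linarith)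
  have hmax : max |(a : ℝ)| |((1 : ℤ) : ℝ)| = |(a : ℝ)| := by
    push_cast; rw [abs_one]; exact max_eq_left ha1
  rw [hmax] at hcard
  rw [TK_eq] at hS
  -- the first map
  have hz0 : ∀ z ∈ S, z ≠ 0 := by
    intro z hz h0
    have := (hS z hz).2.2.1
    rw [h0, zero_mul] at this
    exact lt_irrefl _ this
  choose! fi fw hf using fun z hz => exists_odd (hz0 z hz)
  set g : ℤ → ℤ := fun z => if (3 : ℤ) ∣ z then 3 * fw z + 2 else z with hg
  have hg3 : ∀ z, ¬ (3 : ℤ) ∣ g z := by
    intro z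
    simp only [hg]
    split_ifs with h
    · omega
    · exact h
  have hgT : ∀ z ∈ S, ∃ j : ℕ, (j : ℝ) ≤ C * (1 + Real.log (X / |(a : ℝ)|)) ∧ T^[j] (g z) = a := by
    intro z hz
    obtain ⟨_, _, _, j, hj, hja⟩ := hS z hz
    simp only [hg]
    split_ifs with h
    · obtain ⟨j', hj', h'⟩ := step_away ha hja (hf z hz) h
      exact ⟨j', le_trans (by exact_mod_cast hj') hj, h'⟩
    · exact ⟨j, hj, hja⟩
  have hgX : ∀ z ∈ S, |(g z : ℝ)| ≤ 2 * X := by
    intro z hz
    have h1 := (hS z hz).2.1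
    simp only [hg]
    split_ifs with h
    · have h2 : |3 * fw z + 2| ≤ 2 * |z| := by
        have e := hf z hz
        have h3 : |z| = 2 ^ (fi z) * |2 * fw z + 1| := by
          conv_lhs => rw [e]
          rw [abs_mul, abs_of_pos (by positivity : (0 : ℤ) < 2 ^ (fi z))]
        have h4 : (1 : ℤ) ≤ 2 ^ (fi z) := one_le_pow₀ (by norm_num)
        have h5 : |2 * fw z + 1| ≤ |z| := by
          rw [h3]; nlinarith [abs_nonneg (2 * fw z + 1)]
        rcases abs_cases (3 * fw z + 2) with h6 | h6 <;> rcases abs_cases (2 * fw z + 1) with h7 | h7 <;>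
          omega
      have h6 : ((|3 * fw z + 2| : ℤ) : ℝ) ≤ ((2 * |z| : ℤ) : ℝ) := by exact_mod_cast h2
      push_cast at h6 ⊢
      linarith
    · have : 0 ≤ X := by positivity
      linarith
  -- the second map
  choose! p hpk hpr hpC using fun y (hy : ¬ (3 : ℤ) ∣ y) => hcl r y hy
  set f : ℤ → ℤ := fun z => p (g z) with hfdef
  refine ⟨S.image f, ?_, ?_⟩
  · intro n hn
    obtain ⟨z, hz, rfl⟩ := Finset.mem_image.1 hn
    obtain ⟨j, hj, hja⟩ := hgT z hz
    obtain ⟨k, hk, hkp⟩ := hpk (g z) (hg3 z)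
    have hT : T^[j + k] (f z) = a := by
      rw [Function.iterate_add_apply]
      simp only [hfdef]
      rw [hkp, hja]
    refine ⟨?_, iter_sign hT ha0, hpr _ (hg3 z), j + k, ?_, hT⟩
    · have h1 := hpC _ (hg3 z)
      have h2 : ((|p (g z)| : ℤ) : ℝ) ≤ ((B * |g z| : ℤ) : ℝ) := by exact_mod_cast h1
      push_cast at h2
      have h3 := hgX z hz
      have h4 : (B : ℝ) * (2 * X) = x := by rw [hX]; field_simp
      calc |((f z : ℤ) : ℝ)| ≤ B * |(g z : ℝ)| := h2
        _ ≤ B * (2 * X) := by gcongr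
        _ = x := h4
    · have h1 : Real.log (X / |(a : ℝ)|) ≤ Real.log (x / |(a : ℝ)|) := by
        apply Real.log_le_log
        · have : 0 < X := by positivity
          positivity
        · gcongr
      have h2 : 0 ≤ Real.log (x / |(a : ℝ)|) := by
        apply Real.log_nonneg
        rw [le_div_iff₀ (by positivity), one_mul]
        exact hXa.trans hXx
      have h3 : (k : ℝ) ≤ M := by exact_mod_cast hk
      push_cast
      nlinarith
  · -- multiplicities
    have hfib : ∀ n ∈ S.image f, (S.filter fun z => f z = n).card ≤ 2 * (M + 1) := by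
      intro n _
      have hsub : (S.filter fun z => f z = n) ⊆
          (Finset.range (M + 1)).biUnion fun k => S.filter fun z => g z = T^[k] n := by
        intro z hz
        rw [Finset.mem_filter] at hz
        obtain ⟨k, hk, hkp⟩ := hpk (g z) (hg3 z)
        rw [Finset.mem_biUnion]
        refine ⟨k, Finset.mem_range.2 (by omega), Finset.mem_filter.2 ⟨hz.1, ?_⟩⟩
        rw [← hz.2]
        exact hkp.symm
      refine (Finset.card_le_card hsub).trans (Finset.card_biUnion_le.trans ?_)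
      have h2 : ∀ k ∈ Finset.range (M + 1), (S.filter fun z => g z = T^[k] n).card ≤ 2 := by
        intro k _
        set y := T^[k] n with hy
        have hs1 : ((S.filter fun z => g z = y).filter fun z => (3 : ℤ) ∣ z).card ≤ 1 := by
          rw [Finset.card_le_one]
          intro z hz z' hz'
          simp only [Finset.mem_filter] at hz hz'
          obtain ⟨⟨hzS, hzy⟩, h3⟩ := hz
          obtain ⟨⟨hzS', hzy'⟩, h3'⟩ := hz'
          simp only [hg, if_pos h3] at hzy
          simp only [hg, if_pos h3'] at hzy'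
          have hw : fw z = fw z' := by omega
          have e := hf z hzS
          have e' := hf z' hzS'
          rw [← hw] at e'
          have hi : fi z = fi z' := by
            rcases lt_trichotomy (fi z) (fi z') with h | h | h
            · exfalso
              apply window_inj (X := X) (w := fw z) _ _ h
              · rw [← e]; exact (hS z hzS).1
              · rw [← e']; exact (hS z' hzS').2.1
            · exact h
            · exfalso
              apply window_inj (X := X) (w := fw z) _ _ h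
              · rw [← e']; exact (hS z' hzS').1
              · rw [← e]; exact (hS z hzS).2.1
          rw [e, e', hi]
        have hs2 : ((S.filter fun z => g z = y).filter fun z => ¬ (3 : ℤ) ∣ z).card ≤ 1 := by
          rw [Finset.card_le_one]
          intro z hz z' hz'
          simp only [Finset.mem_filter] at hz hz'
          obtain ⟨⟨_, hzy⟩, h3⟩ := hz
          obtain ⟨⟨_, hzy'⟩, h3'⟩ := hz'
          simp only [hg, if_neg h3] at hzy
          simp only [hg, if_neg h3'] at hzy'
          rw [hzy, hzy']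
        have := Finset.card_filter_add_card_filter_not (s := S.filter fun z => g z = y)
          (fun z => (3 : ℤ) ∣ z)
        omega
      refine (Finset.sum_le_sum h2).trans ?_
      rw [Finset.sum_const, Finset.card_range, smul_eq_mul]
      omega
    have h1 : S.card ≤ 2 * (M + 1) * (S.image f).card := by
      exact Finset.card_le_mul_card_image S _ hfib
    have h2 : (S.card : ℝ) ≤ 2 * (M + 1) * ((S.image f).card : ℝ) := by exact_mod_cast h1
    have h3 : c / (2 * B) / (2 * (M + 1)) * x / |(a : ℝ)| = (c * X / |(a : ℝ)|) / (2 * (M + 1)) := by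
      rw [hX]; field_simp
    rw [h3, div_le_iff₀ (by positivity)]
    linarith

end Pool.Agent.K6.H13.KL
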